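import Pool.Agent.Helper35.PQF.Defs

/-!
# Project PM (MP_d112a4_gt): statements of the modules, with complete proofs in the docstrings.

All modules are independent: a module `X` proves `theorem x (h1 : St_A) ... : St_X`, where the
statements listed in its description are hypotheses.
-/

open Filter Topology Matrix Set MeasureTheory
open scoped ENNReal ComplexOrder

namespace Pool.Agent.Helper35.PM

/-! ## Part A: matrices -/

/-- **HS1** (elementary).  `hs A = Σ |A i j|²` is the squared Frobenius norm.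
(1) Cauchy-Schwarz: `|(AB) i j|² ≤ (Σ_k |A i k|²)(Σ_k |B k j|²)`; sum over `i, j`.
(2) the inverse of `[[a,b],[c,d]]` is `[[d,-b],[-c,a]]`.
(3) `1 = |ad - bc| ≤ |a||d| + |b||c| ≤ (|a|²+|d|²)/2 + (|b|²+|c|²)/2`.
(4) `hs (A*) = hs A`, and `hs A = Re tr (A A*)`. -/
def St_HS1 : Prop :=
  (∀ A B : Mat, hs (A * B) ≤ hs A * hs B) ∧
  (∀ A : SL, hs ((A⁻¹ : SL) : Mat) = hs (A : Mat)) ∧
  (∀ A : SL, 2 ≤ hs (A : Mat)) ∧
  (∀ A : Mat, hs Aᴴ = hs A ∧ ((A * Aᴴ).trace).re = hs A)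

/-- **HS2** (translation length).  Let `τ = tr A`.  The polynomial `μ² - τ μ + 1` has a root `μ`
(`IsAlgClosed`), `μ ≠ 0`, and the other root is `μ⁻¹` (`μ + μ⁻¹ = τ`; the roots are exactly
`μ` and `μ⁻¹` because `X² - τX + 1 = (X - μ)(X - μ⁻¹)`).  Hence the set in the definition of `tl`
is `{log|μ|, -log|μ|}`, its supremum is `|log |μ||`; this proves (2).  (1): choose the root of
modulus `≥ 1`.  (3): `tl A ≥ 0` is clear.  An eigenvalue `μ` of `A` with `|μ| ≥ 1`,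
`tl A = 2 log |μ|`, so `exp (tl A) = |μ|²`.  There is a unit vector `v` with `A v = μ v`
(`det (A - μ) = μ² - τ μ + 1 = 0`; `Matrix.exists_mulVec_eq_zero_iff`), and
`|μ|² ‖v‖² = ‖A v‖² ≤ hs A ‖v‖²` by Cauchy-Schwarz (use `‖v‖² = |v 0|² + |v 1|² > 0`).
(4) conjugate matrices have the same trace.  (5) the definition only involves `τ`; if the trace
is replaced by `-τ` the roots are replaced by their negatives.
(6) if `A ^ n = 1` (or `A ^ n = -1`) with `n ≥ 1` and `A v = μ v`, `v ≠ 0`, then `μ ^ n = ± 1`,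
so `|μ| = 1` and `tl A = 0`. -/
def St_HS2 : Prop :=
  (∀ A : SL, ∃ μ : ℂ, μ ^ 2 - (A : Mat).trace * μ + 1 = 0 ∧ 1 ≤ ‖μ‖ ∧ tl A = 2 * Real.log ‖μ‖) ∧
  (∀ A : SL, ∀ μ : ℂ, μ ^ 2 - (A : Mat).trace * μ + 1 = 0 → tl A = 2 * |Real.log ‖μ‖|) ∧
  (∀ A : SL, 0 ≤ tl A ∧ Real.exp (tl A) ≤ hs (A : Mat)) ∧
  (∀ A B : SL, tl (B * A * B⁻¹) = tl A) ∧
  (∀ A B : SL, ((B : Mat).trace = (A : Mat).trace ∨ (B : Mat).trace = -(A : Mat).trace) →
    tl B = tl A) ∧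
  (∀ (A : SL) (n : ℕ), 1 ≤ n → (A ^ n = 1) → tl A = 0)

/-- **LN**.  `len` is well defined: `Quotient.out (ConjClasses.mk γ)` is conjugate to `γ`
(`ConjClasses.mk_eq_mk_iff_isConj`, `Quotient.out_eq`), and `tl` is invariant under
conjugation (St_HS2, fourth item). -/
def St_LN : Prop :=
  ∀ (Γ : Type) [Group Γ] (ρ : Γ →* SL) (γ : Γ), len ρ (ConjClasses.mk γ) = tl (ρ γ)

/-- Height coordinate: `1 / (|c|² + |d|²)` for `A = [[a,b],[c,d]]`. -/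
noncomputable def ht (A : Mat) : ℝ := 1 / (‖A 1 0‖ ^ 2 + ‖A 1 1‖ ^ 2)

/-- Horizontal coordinate `(a c̄ + b d̄)/(|c|² + |d|²)`. -/
noncomputable def hz (A : Mat) : ℂ :=
  (A 0 0 * (starRingEnd ℂ) (A 1 0) + A 0 1 * (starRingEnd ℂ) (A 1 1)) * (ht A : ℂ)

/-- **CN1** (upper half space coordinates).  For `A` in `SL(2,ℂ)` write
`A A* = [[p,q],[q̄,r]]`, `p = |a|²+|b|²`, `q = a c̄ + b d̄`, `r = |c|²+|d|²`; then `p r - |q|² = 1`
(`det (A A*) = 1`), `r > 0`, `t = ht A = 1/r`, `z = hz A = q/r`.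
(1) `hs A = p + r = (|q|² + 1)/r + r = (|z|² + t² + 1)/t`.
(2) `hs (A⁻¹ B) = tr ((A A*)⁻¹ B B*) = r p' + p r' - 2 Re (q q̄')` (direct computation with
`A⁻¹ = [[d,-b],[-c,a]]`), and with `p = (|q|²+1)/r`, `p' = (|q'|²+1)/r'` this is
`r r' |z - z'|² + r/r' + r'/r = (|z - z'|² + t² + t'²)/(t t')`. -/
def St_CN1 : Prop :=
  ∀ A : SL, 0 < ht (A : Mat) ∧
    hs (A : Mat) * ht (A : Mat) = ‖hz (A : Mat)‖ ^ 2 + ht (A : Mat) ^ 2 + 1 ∧
    ∀ B : SL, hs ((A⁻¹ * B : SL) : Mat) * (ht (A : Mat) * ht (B : Mat)) =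
      ‖hz (A : Mat) - hz (B : Mat)‖ ^ 2 + ht (A : Mat) ^ 2 + ht (B : Mat) ^ 2

/-- **CN2** (orbit counting).  Let `S_X = {γ | hs (ρ γ) ≤ X}` (finite).  Let `N₀` be the number
of elements of `S_10`.  For `γ ∈ S_X` (`X ≥ 1`) let `t = ht (ρ γ)`, `z = hz (ρ γ)`,
`j = ⌊log₂ t⌋` (`Int.log 2 t`, so `2^j ≤ t < 2^(j+1)`), `m = ⌊Re z / 2^j⌋`, `n = ⌊Im z / 2^j⌋`.
*Fibres.*  If `γ, γ'` have the same `(j,m,n)`, `s = 2^j`, then `|z - z'|² ≤ 2 s²`,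
`t² + t'² ≤ 8 s²`, `t t' ≥ s²`, so `hs (ρ (γ⁻¹ γ')) ≤ 10` (St_CN1).  Fix `γ₀` in a fibre:
`γ' ↦ γ₀⁻¹ γ'` maps the fibre injectively into `S_10`, so every fibre has at most `N₀` elements.
*Number of triples.*  From St_CN1, `(|z|² + t² + 1)/t ≤ X`, so `1/X ≤ t ≤ X` and `|z|² ≤ X t`.
So `1/(2X) ≤ 2^j ≤ X` and `|Re z|, |Im z| ≤ sqrt (2 X 2^j)`; hence
`|m|, |n| ≤ sqrt (2 X / 2^j) + 1 ≤ 3 sqrt (X/2^j)` (as `X/2^j ≥ 1`), so for a given `j` there are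
at most `(6 sqrt (X/2^j) + 1)² ≤ 49 X / 2^j` pairs `(m,n)`; summing the geometric series over
`j` with `2^j ≥ 1/(2X)` gives at most `49 X * (2X + X + X/2 + ...) ≤ 196 X²` triples.
So `#S_X ≤ 196 N₀ X²` (if `N₀ = 0` the set is empty: but `1 ∈ S_10`).
(Any other way of organising the count is fine, the constant is irrelevant.) -/
def St_CN2 : Prop :=
  ∀ (Γ : Type) [Group Γ] (ρ : Γ →* SL), IsDiscrete ρ →
    ∃ C : ℝ, 0 < C ∧ ∀ X : ℝ, 1 ≤ X → (({γ : Γ | hs (ρ γ) ≤ X}.ncard : ℝ) ≤ C * X ^ 2)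

/-- **DP1** (displacement).  (1) `(B Q B*)⁻¹ = B*⁻¹ Q⁻¹ B⁻¹`, so
`(BQB*)⁻¹ (BAB⁻¹) (BQB*) (BAB⁻¹)* = B*⁻¹ Q⁻¹ A Q A* B*`, and the trace is invariant under cyclic
permutation (`det Q ≠ 0` for positive definite `Q`, `det B = 1`).
(2) `density P = (tr P)⁻¹ • P` and the scalar cancels (`tr P ≠ 0`; it is real and positive for
positive definite `P`). -/
def St_DP1 : Prop :=
  (∀ (A B : SL) (Q : Mat), Q.PosDef →
    disp ((B * A * B⁻¹ : SL) : Mat) ((B : Mat) * Q * (B : Mat)ᴴ) = disp (A : Mat) Q) ∧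
  (∀ (A : Mat) (Q : Mat), Q.PosDef → disp A (density Q) = disp A Q) ∧
  (∀ (B : SL) (Q : Mat), Q.PosDef → ((B : Mat) * Q * (B : Mat)ᴴ).PosDef) ∧
  (∀ Q : Mat, Q.PosDef → (density Q).PosDef ∧ (density Q).trace = 1)

/-- **DP2** (compactness).  Let `K` be compact, consisting of positive definite matrices of trace
one.  For `Q ∈ K`, `Q = [[x, y],[ȳ, 1-x]]` with `0 < x < 1` and `det Q = x(1-x) - |y|² > 0`; the
function `det` (real part) is continuous and positive on `K`, so `det Q ≥ d > 0` on `K`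
(if `K` is empty there is nothing to prove, `c = 1`).
`Q⁻¹ - 1` is positive semidefinite because the eigenvalues of `Q` are in `(0,1]`:
concretely `Q⁻¹ = (det Q)⁻¹ [[1-x, -y],[-ȳ, x]]` and `det Q = x(1-x) - |y|²`, so
`det Q · (Q⁻¹ - 1) = [[1-x-D, -y],[-ȳ, x-D]]`, `D = det Q ≤ x(1-x)`, with
`1-x-D ≥ (1-x)² ≥ 0`, `x - D ≥ x² ≥ 0` and determinant `(1-x-D)(x-D) - |y|² = D²`
(`= x(1-x) - D(1-x) - Dx + D² - |y|² = D - D + D²`), `≥ 0`.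
Similarly `Q - D • 1` is positive semidefinite: diagonal entries `x - D, 1-x-D ≥ 0` and determinant
`(x-D)(1-x-D) - |y|² = D² ≥ 0`.
So for every matrix `A`:
`disp A Q = Re tr (Q⁻¹ (A Q A*)) ≥ Re tr (A Q A*) = Re tr (A* A Q) ≥ D Re tr (A* A) = D hs A`,
where `tr (M N) ≥ 0` for `M, N` positive semidefinite is used twice
(`M = Q⁻¹ - 1`, `N = A Q A*`; then `M = A* A`, `N = Q - D`).
Here `Re tr (M N) ≥ 0`: write `M = R* R` (`Matrix.posSemidef_iff_eq_conjTranspose_mul_self`),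
`tr (M N) = tr (R N R*)`, a positive semidefinite matrix has nonnegative trace.
Take `c = d`. -/
def St_DP2 : Prop :=
  ∀ K : Set Mat, IsCompact K → (∀ P ∈ K, P.PosDef ∧ P.trace = 1) →
    ∃ c : ℝ, 0 < c ∧ ∀ Q ∈ K, ∀ A : Mat, c * hs A ≤ disp A Q

/-- **DP3** (loxodromic elements).  `A` in `SL(2,ℂ)`, `tl A > 0`.  By St_HS2 there is `μ` with
`μ² - tr A μ + 1 = 0`, `|μ| > 1`, `tl A = 2 log |μ|`, i.e. `exp (tl A) = |μ|²`.  The eigenvalues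
`μ ≠ μ⁻¹` are distinct, so there is an invertible `S` with `A = S D S⁻¹`, `D = diag(μ, μ⁻¹)`.
Let `P` be positive definite, `P' = S⁻¹ P S⁻¹* = [[a,b],[b̄,c]]`, positive definite, `a, c > 0`.
`Q_n = A^n P A^n* + A^{-n} P A^{-n}* = S Q'_n S*`, `r = |μ|²`,
`Q'_n = [[(r^n + r^{-n}) a, b_n],[b̄_n, (r^n + r^{-n}) c]]`, `|b_n| ≤ 2|b|`.
`disp A Q_n = Re tr (Q'_n⁻¹ D Q'_n D*)` (same computation as in St_DP1)
`= [c_n r a_n + a_n r⁻¹ c_n - 2 Re (b̄_n (μ μ̄⁻¹) b_n)] / (a_n c_n - |b_n|²)` with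
`a_n = (r^n+r^{-n}) a`, `c_n = (r^n+r^{-n}) c`.  As `n → ∞`, `a_n c_n → ∞` while `|b_n|` stays
bounded, so `disp A Q_n → r + r⁻¹ < 2 r + 1 ≤ 3 r`; take `n` large. -/
def St_DP3 : Prop :=
  ∀ A : SL, 0 < tl A → ∀ P : Mat, P.PosDef → ∃ n : ℕ,
    disp (A : Mat) (((A ^ n : SL) : Mat) * P * ((A ^ n : SL) : Mat)ᴴ +
      (((A ^ n)⁻¹ : SL) : Mat) * P * (((A ^ n)⁻¹ : SL) : Mat)ᴴ) ≤ 3 * Real.exp (tl A)

/-- **DP4** (parabolic elements).  `A` in `SL(2,ℂ)`, `tl A = 0`.  Let `μ` be an eigenvalue,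
`|μ| = 1`, the other one is `μ⁻¹`.  If `μ ≠ μ⁻¹` then `A = S diag(μ,μ⁻¹) S⁻¹`, so
`hs (A^n) ≤ hs S hs (S⁻¹) * 2` for all `n`: the first alternative holds.
If `μ = μ⁻¹` then `μ = ε = ± 1` and `N = A - ε` satisfies `N² = 0` (Cayley-Hamilton:
`A² - 2εA + 1 = 0`).  If `N = 0` then `hs (A^n) = 2`: first alternative.  If `N ≠ 0`: there is an
invertible `S` with `A = S [[ε,1],[0,ε]] S⁻¹`.  Let `P` be positive definite,
`P' = S⁻¹ P S⁻¹* = [[a,b],[b̄,c]]`, `c > 0`.  Since `[[ε,1],[0,ε]]^n = ε^n [[1,nε],[0,1]]`,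
`Q_n = A^n P A^n* + A^{-n} P A^{-n}* = S Q'_n S*`, `Q'_n = 2 [[a + n²c, b],[b̄, c]]`.
`disp A Q_n = Re tr (Q'_n⁻¹ D Q'_n D*)`, `D = [[ε,1],[0,ε]]`, and
`D Q'_n D* = 2 [[a + n²c + ε(b + b̄) + c, b + εc],[.., c]]`; so with `m = a + n² c`,
`Δ = m c - |b|² > 0`:
`disp A Q_n = Re [ c (m + 2ε Re b + c) - b (b̄ + εc) - b̄ (b + εc) + m c ] / Δ
 = [2 m c - 2 |b|² + c²] / Δ = 2 + c²/Δ → 2`.  (`2 ε c Re b` cancels.)  Second alternative.
(Instead of the normal form one may work directly: `A = ε + N`, `N² = 0`,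
`A^n = ε^n (1 + n ε N)`, `Q_n = 2 (P + n² N P N*)`.) -/
def St_DP4 : Prop :=
  ∀ A : SL, tl A = 0 →
    (∃ M : ℝ, ∀ n : ℕ, hs ((A ^ n : SL) : Mat) ≤ M) ∨
    ∀ P : Mat, P.PosDef → ∀ ε : ℝ, 0 < ε → ∃ n : ℕ,
      disp (A : Mat) (((A ^ n : SL) : Mat) * P * ((A ^ n : SL) : Mat)ᴴ +
        (((A ^ n)⁻¹ : SL) : Mat) * P * (((A ^ n)⁻¹ : SL) : Mat)ᴴ) ≤ 2 + ε

/-- **DP5** (rigidity).  Let `Q` be positive definite and `A` in `SL(2,ℂ)`, `P = A Q A*`,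
positive definite with `det P = det Q = d > 0`.  For `2 × 2` matrices
`det (P - Q) = det P + det Q - det Q * tr (Q⁻¹ P) = d (2 - tr (Q⁻¹ P))`, and `tr (Q⁻¹ P)` is real
`= disp A Q`.  Suppose `disp A Q ≤ 2`; then `det (P - Q) ≥ 0`.  `H = P - Q` is Hermitian with
`det H ≥ 0`, so its two (real) eigenvalues have the same sign: `H ≥ 0` or `H ≤ 0`.
If `H ≥ 0`: `det P = det (Q + H) ≥ det Q` with equality only if `H = 0`: for
`Q = [[x,y],[ȳ,w]]`, `H = [[h₁,k],[k̄,h₂]]` with `h₁, h₂ ≥ 0`, `h₁h₂ ≥ |k|²`: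
`det (Q+H) - det Q - det H = x h₂ + w h₁ - 2 Re (y k̄) ≥ 2 sqrt (x w h₁ h₂) - 2 |y||k| ≥ 0`, with
equality only if .. : since `x w > |y|²`, if the value is `0` then `h₁ h₂ = 0`, `k = 0`, and
`x h₂ + w h₁ = 0`, so `H = 0`.  The case `H ≤ 0` is the same with the roles of `P, Q` exchanged.
So `A Q A* = Q`. -/
def St_DP5 : Prop :=
  ∀ (A : SL) (Q : Mat), Q.PosDef → disp (A : Mat) Q ≤ 2 → (A : Mat) * Q * (A : Mat)ᴴ = Q

/-- **FO** (elements of translation length zero have finite order).  Let `A = ρ γ`, `tl A = 0`.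
By St_DP4 there are two cases.
(a) `hs (A^n) ≤ M` for all `n`: then all `γ^n` lie in the finite set `{hs (ρ ·) ≤ M}`, so
`γ^n = γ^m` for some `n < m`, and `γ^(m-n) = 1`.
(b) Let `C, K` be as in `ConvexCocompact` and `P ∈ C`.  For every `k` there is `n` such that
`Q = A^n P A^n* + A^{-n} P A^{-n}*` has `disp A Q ≤ 2 + 1/(k+1)`.  `density Q ∈ C`: it is a convex
combination of `density (A^n P A^n*)` and `density (A^{-n} P A^{-n}*)`, which are in `C` by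
invariance (`A^n = ρ (γ^n)`; weights are the traces divided by the sum of the traces, which are
positive reals by St_DP1).  So there is `g_k ∈ Γ` with
`Q_k := density (B (density Q) B*) ∈ K`, `B = ρ g_k`, and with `γ_k = g_k γ g_k⁻¹`,
`disp (ρ γ_k) Q_k = disp A Q ≤ 2 + 1/(k+1)` (St_DP1).  By St_DP2, `c hs (ρ γ_k) ≤ 3`: all the
`γ_k` lie in a finite set (discreteness), so one `γ'` occurs for infinitely many `k`; along those
`k` the points `Q_k ∈ K` have a cluster point `Q' ∈ K` (compactness) and `disp (ρ γ') ·` is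
continuous at positive definite matrices (`det ≠ 0`; `Q⁻¹ = (det Q)⁻¹ • adjugate Q`), so
`disp (ρ γ') Q' ≤ 2`.  By St_DP5 `A' Q' A'* = Q'` for `A' = ρ γ'`, so `A'^n Q' A'^n* = Q'` for all
`n`, and `hs (A'^n)` is bounded: `disp (A'^n) Q' = Re tr (Q'⁻¹ Q') = 2` and St_DP2 again.  As in
(a), `γ'` has finite order; `γ` is conjugate to `γ'`, so it has finite order. -/
def St_FO : Prop :=
  ∀ (Γ : Type) [Group Γ] (ρ : Γ →* SL), IsDiscrete ρ → ConvexCocompact ρ →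
    ∀ γ : Γ, tl (ρ γ) = 0 → ∃ n : ℕ, 1 ≤ n ∧ γ ^ n = 1

/-- **CC** (every conjugacy class has a representative moving the base point little).
Let `C, K` be as in `ConvexCocompact`, `P ∈ C`, `c` from St_DP2.  Let `γ ∈ Γ`, `A = ρ γ`.
*Claim*: there is `Q` positive definite with `density Q ∈ C` and `disp A Q ≤ 3 exp (tl A)`.
If `tl A > 0` this is St_DP3 (`density Q ∈ C` as in the proof of St_FO).  If `tl A = 0` (it is
`≥ 0` by St_HS2) then `γ^n = 1` for some `n ≥ 1` by St_FO; take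
`Q = Σ_{j<n} A^j P A^j*`; `density Q` is a convex combination of the
`density (A^j P A^j*) ∈ C` (finite induction or `Convex.sum_mem`), and `A Q A* = Q`, so
`disp A Q = Re tr (Q⁻¹ Q) = 2 ≤ 3`.
Now there is `k ∈ Γ` with `density (B (density Q) B*) ∈ K`, `B = ρ k`; by St_DP1
`disp (ρ (k γ k⁻¹)) (that matrix) = disp A Q ≤ 3 exp (tl A)` and St_DP2 gives
`hs (ρ (k γ k⁻¹)) ≤ (3/c) exp (tl A)`. -/
def St_CC : Prop :=
  ∀ (Γ : Type) [Group Γ] (ρ : Γ →* SL), IsDiscrete ρ → ConvexCocompact ρ →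
    ∃ C : ℝ, 0 < C ∧ ∀ γ : Γ, ∃ k : Γ, hs (ρ (k * γ * k⁻¹) : Mat) ≤ C * Real.exp (tl (ρ γ))

/-- **CL** (counting conjugacy classes).  Let `C₁` be the constant of St_CC (we may take
`C₁ ≥ 1`), `C₂` that of St_CN2.  For a class `c` with `len ρ c ≤ T` (`T ≥ 0`) choose a
representative `g_c` with `hs (ρ g_c) ≤ C₁ exp (len ρ c) ≤ C₁ exp T` (St_CC applied to
`Quotient.out c`; `k γ k⁻¹` is in the same class).  `c ↦ g_c` is injective from `classes ρ T` into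
the finite set `{hs (ρ ·) ≤ C₁ exp T}`, which has at most `C₂ (C₁ exp T)²` elements. -/
def St_CL : Prop :=
  ∀ (Γ : Type) [Group Γ] (ρ : Γ →* SL), IsDiscrete ρ → ConvexCocompact ρ →
    (∀ T : ℝ, (classes ρ T).Finite) ∧
    ∃ C : ℝ, 0 < C ∧ ∀ T : ℝ, 0 ≤ T → (num ρ T : ℝ) ≤ C * Real.exp (2 * T)

/-- **GR1** (many conjugacy classes in a surface group).  Let `g ≥ 2`, `a = a_0`, `b = a_1` the
images of the generators `(0, false)`, `(1, false)`.  For `n ≥ 1` let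
`W = Multiplicative (ZMod n → ZMod 2) ⋊ Multiplicative (ZMod n)` (shift action; any concrete model
is fine, for instance the group of permutations of `ZMod n × ZMod 2` generated by the maps below).
Define a homomorphism `φ` of the surface group to `W` by `(0,false) ↦ x = (0, shift)`,
`(1,false) ↦ y = (e_0, shift)`, all other generators `↦ 1`; the relator maps to `1` because every
`(i, true)` maps to `1`, so every commutator maps to `1` (`PresentedGroup.toGroup`).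
For `w : Fin n → Bool` the word `∏ (if w i then a else b)` maps to `(f_w, 0)` where
`f_w : ZMod n → ZMod 2`, and `w ↦ f_w` is injective: the `i`-th letter contributes `e_i` (or
`e_{-i}`, according to conventions) if it is `b` and nothing if it is `a`, and the total shift is
`n = 0`.  If two such elements `(f, 0)`, `(f', 0)` are conjugate in `W` then
`f'` is a cyclic rotation of `f` (`(h, j)(f, 0)(h, j)⁻¹ = (rotation of f by j, 0)`, the vectors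
commute).  So every conjugacy class of the surface group contains at most `n` of the `2^n` words
(more precisely: the map `w ↦ class of the word` has fibres of size at most `n`), hence at least
`2^n/n` classes.
*Concrete model*: permutations of `ZMod n × ZMod 2`: `x (i, s) = (i+1, s)`,
`y (i, s) = (i+1, s + [i = 0])`.  A word with total shift `0` acts by `(i, s) ↦ (i, s + f i)`.
Conjugating by a permutation of the form `(i, s) ↦ (i + j, s + h i)` (all elements of the image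
are of this form) gives `(i, s) ↦ (i, s + f (i - j))`. -/
def St_GR1 : Prop :=
  ∀ g : ℕ, 2 ≤ g → ∃ a b : SurfaceGroup g, ∀ n : ℕ, 1 ≤ n →
    2 ^ n ≤ n * ({c : ConjClasses (SurfaceGroup g) | ∃ w : Fin n → Bool,
      c = ConjClasses.mk (List.ofFn (fun i => if w i then a else b)).prod}.ncard)

/-- **GR2** (exponential lower bound).  Let `a, b` be as in St_GR1, `m = max (hs (ρ a))
(hs (ρ b)) ≥ 2`.  A product `w` of `n` letters from `{a,b}` has `hs (ρ w) ≤ m^n`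
(St_HS1; for `n ≥ 1`, or `≤ 2 m^n` with the empty product `hs 1 = 2`), so
`tl (ρ w) ≤ log (2 m^n) ≤ n log (2m)` (St_HS2).  With `λ = log (2m) > 0` the classes in St_GR1 all
lie in `classes ρ (n λ)` (St_LN), which is finite, so `num ρ (n λ) ≥ 2^n/n`.  `num` is monotone in
`T` (finite sets).  For `T ≥ T₀` take `n = ⌊T/λ⌋ ≥ 1`: `num ρ T ≥ 2^n/n ≥ exp (n/2)` for `n` large
(`log 2 > 1/2`), and `n ≥ T/λ - 1`, so `num ρ T ≥ exp (T/(4λ))` for `T` large. -/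
def St_GR2 : Prop :=
  ∀ g : ℕ, 2 ≤ g → ∀ ρ : SurfaceGroup g →* SL, (∀ T : ℝ, (classes ρ T).Finite) →
    ∃ c T₀ : ℝ, 0 < c ∧ ∀ T : ℝ, T₀ ≤ T → Real.exp (c * T) ≤ (num ρ T : ℝ)

/-- **EN** (entropy).  Suppose `exp (c T) ≤ N(T) ≤ C exp (2T)` for large `T` (`c > 0`), where
`N = num ρ`.  Then `F(T) = log N(T) / T` satisfies `c ≤ F(T) ≤ 2 + (log C)/T` for large `T`, so it
is bounded and `c ≤ limsup F ≤ 2`; the last item is the defining property of `limsup`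
(`Filter.eventually_lt_of_limsup_lt`), `N(T) → ∞` is clear.  Existence of an adapted ultrafilter:
with `h = limsup F`, for every `ε > 0` and `T₁` there is `T > T₁` with `|F(T) - h| < ε`
(`frequently_lt_of_lt_limsup` and the eventual upper bound), so the filter
`atTop ⊓ comap F (𝓝 h)` is nontrivial; take an ultrafilter finer than it
(`Ultrafilter.of`). -/
def St_EN : Prop :=
  ∀ (Γ : Type) [Group Γ] (ρ : Γ →* SL) (c C T₀ : ℝ), 0 < c → 0 < C →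
    (∀ T : ℝ, T₀ ≤ T → Real.exp (c * T) ≤ (num ρ T : ℝ)) →
    (∀ T : ℝ, 0 ≤ T → (num ρ T : ℝ) ≤ C * Real.exp (2 * T)) →
    0 < ent ρ ∧ ent ρ ≤ 2 ∧ Tendsto (fun T => (num ρ T : ℝ)) atTop atTop ∧
    (∀ ε : ℝ, 0 < ε → ∀ᶠ T in atTop, Real.log (num ρ T) / T ≤ ent ρ + ε) ∧
    ∃ U : Ultrafilter ℝ, Adapted U ρ

/-- Facts about a quasifuchsian representation used from now on. -/
def Facts {Γ : Type} [Group Γ] (ρ : Γ →* SL) : Prop :=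
  (∀ T : ℝ, (classes ρ T).Finite) ∧ 0 < ent ρ ∧ ent ρ ≤ 2 ∧
    Tendsto (fun T => (num ρ T : ℝ)) atTop atTop ∧
    (∀ ε : ℝ, 0 < ε → ∀ᶠ T in atTop, Real.log (num ρ T) / T ≤ ent ρ + ε) ∧
    (∀ γ : Γ, tl (ρ γ) = 0 ↔ ∃ n : ℕ, 1 ≤ n ∧ γ ^ n = 1) ∧
    ∃ U : Ultrafilter ℝ, Adapted U ρ

/-- **QF** (assembly).  St_CL, St_GR2, St_EN; the equivalence `tl (ρ γ) = 0 ↔ finite order` is
St_FO and the last item of St_HS2 (`(ρ γ)^n = ρ (γ^n) = 1`). -/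
def St_QF : Prop :=
  ∀ g : ℕ, 2 ≤ g → ∀ ρ : SurfaceGroup g →* SL, IsQF ρ → Facts ρ

/-! ## Part B: complex analysis -/

/-- **HL** (lengths are harmonic).  `A z` in `SL(2,ℂ)` with holomorphic entries on the unit disc
`𝔻` and `tl (A z) > 0` for `z ∈ 𝔻`.  Let `τ(z) = tr (A z)`, holomorphic.  `τ(z)² ≠ 4`: otherwise
`τ = ±2`, the root of `μ² - τμ + 1` is `μ = ±1` and `tl = 0` by St_HS2.  So `τ² - 4` is a
nonvanishing holomorphic function on `𝔻` and has a holomorphic square root `s`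
(`Complex.exists_continuousOn_pow_eq` gives a continuous one, the ball being simply connected
(convex); a continuous square root of a nonvanishing holomorphic function is holomorphic; or use a
primitive of the logarithmic derivative, `DifferentiableOn.isExactOn_ball`).  Let
`λ = (τ + s)/2`: `λ² - τλ + 1 = 0`, holomorphic, nonvanishing, and `tl (A z) = 2 |log |λ(z)||`
(St_HS2).  Since `tl > 0`, `log |λ(z)| ≠ 0` for all `z`; it is continuous on the connected set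
`𝔻`, so it has constant sign; replacing `s` by `-s` (which replaces `λ` by `λ⁻¹`) we may assume
that it is positive.  `λ` has a holomorphic logarithm `L` on `𝔻` (same argument),
`exp L = λ`, `Re L = log |λ|`.  `G = 2 L`. -/
def St_HL : Prop :=
  ∀ A : ℂ → SL, (∀ i j, DifferentiableOn ℂ (fun z => (A z : Mat) i j) (Metric.ball 0 1)) →
    (∀ z ∈ Metric.ball (0 : ℂ) 1, 0 < tl (A z)) →
    ∃ G : ℂ → ℂ, DifferentiableOn ℂ G (Metric.ball 0 1) ∧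
      ∀ z ∈ Metric.ball (0 : ℂ) 1, (G z).re = tl (A z)

/-- **HK** (Harnack inequality for symmetrised functions).  `G` holomorphic on `𝔻`, `Re G ≥ 0`,
`n ≥ 1`, `ω = exp (2πi/n)`.  First assume `Re G ≥ e > 0` (apply the result to `G + e` and let
`e → 0`).  `F(z) = (1/n) Σ_{j<n} G(ω^j z)`, holomorphic, `Re F > 0`, `F(ω z) = F(z)`,
`F(0) = G(0)`.  Subtract the constant `i Im G(0)`; so `F(0) = a > 0` real.
`φ = (F - a)/(F + a)` is holomorphic, `|φ| ≤ 1` (`Re F ≥ 0`), `φ(0) = 0`, `φ(ωz) = φ(z)`.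
`φ` vanishes to order `n` at `0`: in the power series `Σ b_k z^k`, `b_k (ω^k - 1) = 0`, so
`b_k = 0` for `0 < k < n` (uniqueness of the power series, `HasFPowerSeriesAt.eq_formalMultilinearSeries`;
for the only cases used later, `n = 1, 2, 4`, one can also argue with derivatives at `0`:
`φ^{(k)}(0) = ω^k φ^{(k)}(0)`).
So `φ(z) = o(|z|^{n-1})` and the Schwarz lemma
`Complex.dist_le_mul_div_pow_of_mapsTo_ball_of_isLittleO` (with `n-1`) gives `|φ(z)| ≤ |z|^n`.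
Finally `F = a (1+φ)/(1-φ)`, `Re F ≤ a (1+|φ|)/(1-|φ|) ≤ a (1+|z|^n)/(1-|z|^n)`.
It is enough to prove `n = 1, 2, 4` (that is what the statement says). -/
def St_HK : Prop :=
  ∀ G : ℂ → ℂ, DifferentiableOn ℂ G (Metric.ball 0 1) →
    (∀ z ∈ Metric.ball (0 : ℂ) 1, 0 ≤ (G z).re) → ∀ z ∈ Metric.ball (0 : ℂ) 1,
    (G z).re ≤ (1 + ‖z‖) / (1 - ‖z‖) * (G 0).re ∧
    (G z).re + (G (-z)).re ≤ 2 * ((1 + ‖z‖ ^ 2) / (1 - ‖z‖ ^ 2)) * (G 0).re ∧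
    (G z).re + (G (-z)).re + (G (Complex.I * z)).re + (G (-(Complex.I * z))).re ≤
      4 * ((1 + ‖z‖ ^ 4) / (1 - ‖z‖ ^ 4)) * (G 0).re

/-- **UL** (limits of positive harmonic functions along an ultrafilter).  `G_T` holomorphic on `𝔻`
with `Re G_T ≥ 0` and `Re G_T(p) ≤ M` for `T ∈ S`, `S ∈ U`.  Replace `G_T` by
`G_T - i Im G_T(0)` (same real part), so `G_T(0)` is real.
*Bounds*: by St_HK (first item) applied to `ζ ↦ G_T(φ(ζ))`, `φ(ζ) = (p - ζ)/(1 - p̄ ζ)` (an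
automorphism of `𝔻` exchanging `0` and `p`), `Re G_T(0) ≤ M (1+|p|)/(1-|p|) =: M'` for `T ∈ S`;
again by St_HK, `Re G_T(z) ≤ M' (1+|z|)/(1-|z|)`.  By Borel-Caratheodory
(`Complex.borelCaratheodory`, on slightly smaller discs) there is `B_r` with `|G_T(z)| ≤ B_r` for
`|z| ≤ r < 1`, `T ∈ S`; by Cauchy's estimate the `G_T`, `T ∈ S`, are uniformly Lipschitz on
`|z| ≤ r`.
*Limit*: for `z ∈ 𝔻` the values `G_T(z)`, `T ∈ S`, lie in a compact ball, so they have a limit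
`G(z)` along the ultrafilter `U`.  By equicontinuity the convergence is uniform on `|z| ≤ r`
(finite `ε`-net: finitely many points `z_i`, a set of `U` on which
`|G_T(z_i) - G(z_i)| < ε` for all `i`).  So `G_T → G` locally uniformly on `𝔻` along `U` and `G` is
holomorphic (`TendstoLocallyUniformlyOn.differentiableOn`, which allows any nontrivial filter; the
functions with `T ∉ S` are holomorphic too).  Real parts converge. -/
def St_UL : Prop :=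
  ∀ (U : Ultrafilter ℝ) (G : ℝ → ℂ → ℂ) (p : ℂ) (M : ℝ), p ∈ Metric.ball (0 : ℂ) 1 →
    (∀ T, DifferentiableOn ℂ (G T) (Metric.ball 0 1)) →
    (∀ T, ∀ z ∈ Metric.ball (0 : ℂ) 1, 0 ≤ (G T z).re) →
    (∀ᶠ T in (U : Filter ℝ), (G T p).re ≤ M) →
    ∃ G₀ : ℂ → ℂ, DifferentiableOn ℂ G₀ (Metric.ball 0 1) ∧
      ∀ z ∈ Metric.ball (0 : ℂ) 1,
        Tendsto (fun T => (G T z).re) (U : Filter ℝ) (𝓝 (G₀ z).re)

/-- **AV1** (averages at the base point).  `avg ρ ρ T = #{c ∈ R_T | len c ≠ 0}/#R_T`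
(each term of the sum is `x/x`, equal to `1` if `x ≠ 0` and to `0` if `x = 0`).  The classes with
`len c = 0` form a subset of the finite set `classes ρ 0`, of cardinality `N₀` say, so
`1 - N₀/N(T) ≤ avg ρ ρ T ≤ 1`, and `N(T) → ∞`. -/
def St_AV1 : Prop :=
  ∀ (Γ : Type) [Group Γ] (ρ : Γ →* SL), Facts ρ →
    Tendsto (avg ρ ρ) atTop (𝓝 1) ∧ ∀ T, avg ρ ρ T ≤ 1

/-- **AV2** (averages along a holomorphic disc are real parts of holomorphic functions).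
`f` a holomorphic disc, all `f z` (`z ∈ 𝔻`) satisfy `Facts`.  Fix `p ∈ 𝔻` and `T`.  For a class `c`
let `γ = Quotient.out c`.  If `γ` has finite order then `tl (f z γ) = 0` for all `z ∈ 𝔻` and we put
`G_c = 0`; otherwise `tl (f z γ) > 0` for all `z ∈ 𝔻` (`≥ 0` by St_HS2, `≠ 0` by `Facts`) and St_HL
gives `G_c` with `Re G_c(z) = tl (f z γ) = len (f z) c`.
`G = Σ_{c ∈ R_T(f p)} G_c / (len (f p) c) / num (f p) T` (finite sum,
`finsum_mem_eq_finite_toFinset_sum`; division by real numbers).  `avg ≥ 0` because all terms are. -/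
def St_AV2 : Prop :=
  ∀ (Γ : Type) [Group Γ] (f : ℂ → Γ →* SL),
    (∀ γ i j, DifferentiableOn ℂ (fun z : ℂ => (f z γ : Mat) i j) (Metric.ball 0 1)) →
    (∀ z ∈ Metric.ball (0 : ℂ) 1, Facts (f z)) → ∀ p ∈ Metric.ball (0 : ℂ) 1, ∀ T : ℝ,
    ∃ G : ℂ → ℂ, DifferentiableOn ℂ G (Metric.ball 0 1) ∧
      ∀ z ∈ Metric.ball (0 : ℂ) 1, (G z).re = avg (f p) (f z) T ∧ 0 ≤ (G z).re

/-- **JG** (`J ≥ 1`).  `Facts ρ`, `Facts σ`, `U` adapted to `ρ`, `avg ρ σ → I` along `U`.  Then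
`ent ρ ≤ I * ent σ`.  Proof: the averages are `≥ 0`, so `I ≥ 0`.  Let `I < K' < K`.  For `T` in a
set of `U` (with `T > 0`) `avg ρ σ T ≤ K'`.  Let `S = {c ∈ classes ρ T | len σ c ≤ K T}`.  If
`c ∈ classes ρ T` is not in `S`, then `len σ c > K T ≥ K len ρ c ≥ 0`, and `len ρ c > 0`
(otherwise `len ρ c = 0`, the element has finite order and `len σ c = 0`, by `Facts`), so the ratio
is `> K`.  As all ratios are `≥ 0`, `K' N ≥ K * #(complement of S)`, i.e.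
`#S ≥ (1 - K'/K) N`, `N = num ρ T`.  And `S ⊆ classes σ (K T)`, so
`num σ (K T) ≥ (1 - K'/K) num ρ T`, `> 0`.  Take logarithms and divide by `K T`:
`log (num σ (KT)) / (KT) ≥ log (1 - K'/K)/(KT) + (log (num ρ T)/T)/K`.
Along `U` the right side tends to `ent ρ / K`, and the left side is `≤ ent σ + ε` for `T` large
(`Facts σ`; `K T → ∞`).  So `ent ρ ≤ K (ent σ + ε)`; let `ε → 0` and `K → I`. -/
def St_JG : Prop :=
  ∀ (Γ : Type) [Group Γ] (ρ σ : Γ →* SL) (U : Ultrafilter ℝ) (I : ℝ), Facts ρ → Facts σ →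
    Adapted U ρ → Tendsto (avg ρ σ) (U : Filter ℝ) (𝓝 I) → ent ρ ≤ I * ent σ

/-- **PO** (the frame).  `u z = 1/ent (f z)`, `j p z = J (U (f p)) (f p) (f z)`.
`u ≥ 1/2` because `0 < ent ≤ 2`.  Fix `p`, `V = U (f p)`.  By St_AV2 and St_AV1 (`Re G_T(p) =
avg (f p) (f p) T ≤ 1`) and St_UL there is `G₀` holomorphic on `𝔻` with
`avg (f p) (f z) → Re G₀(z)` along `V`, so `inter V (f p) (f z) = Re G₀ (z)`
(`Tendsto.limUnder_eq`).  Put `G = G₀ / ent (f p)`.  Then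
`Re G(z) = inter/ent (f p) = j p z * u z`, `Re G(p) = 1/ent (f p)` (St_AV1: limit `1` along
`V ≤ atTop`), and `Re G(z) ≥ u z` by St_JG. -/
def St_PO : Prop :=
  ∀ (Γ : Type) [Group Γ] (f : ℂ → Γ →* SL) (U : (Γ →* SL) → Ultrafilter ℝ),
    (∀ γ i j, DifferentiableOn ℂ (fun z : ℂ => (f z γ : Mat) i j) (Metric.ball 0 1)) →
    (∀ z ∈ Metric.ball (0 : ℂ) 1, Facts (f z)) →
    (∀ z ∈ Metric.ball (0 : ℂ) 1, Adapted (U (f z)) (f z)) →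
    Pot (fun z => 1 / ent (f z)) (fun p z => J (U (f p)) (f p) (f z))

/-! ## Part C: geodesics -/

/-- **GE1**.  `z_t = tanh (t/2)`.  The Moebius map `φ_t(z) = (z + z_t)/(1 + z_t z)` maps `𝔻` into
`𝔻` holomorphically, `φ_t(0) = z_t`, `φ_t(z_δ) = z_{t+δ}`, `φ_t(-z_δ) = z_{t-δ}` (addition formula
for `tanh`, and `z_{-δ} = -z_δ`).  Let `G` be the function of `Pot` for `p = z_t`.
(1) `Re (G ∘ φ_t) ≥ u ≥ 1/2 ≥ 0`; St_HK (first item) at `± |z_δ|`: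
`u(z_{t±δ}) ≤ Re G(z_{t±δ}) ≤ (1+tanh(δ/2))/(1-tanh(δ/2)) u(z_t) = e^δ u(z_t)`, `δ = |s-t|`.
(2) the same with `F = G ∘ φ_t - 1/2`, `Re F ≥ 0`, `Re F(0) = u(z_t) - 1/2`.
(3) second item of St_HK for `F` at `z_δ`, `δ > 0`:
`(1 + tanh²(δ/2))/(1 - tanh²(δ/2)) = cosh δ`, so
`Re F(z_δ) + Re F(-z_δ) ≤ 2 cosh δ (u(z_t) - 1/2)`; and
`(j z_t z_{t±δ} - 1) u(z_{t±δ}) = Re F(± z_δ) - (u(z_{t±δ}) - 1/2)`.
(4) `j z_t z_s u(z_s) ≥ u(z_s)` and `u > 0`. -/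
def St_GE1 : Prop :=
  ∀ (u : ℂ → ℝ) (j : ℂ → ℂ → ℝ), Pot u j →
    (∀ s t : ℝ, u (zt s) ≤ Real.exp |s - t| * u (zt t)) ∧
    (∀ s t : ℝ, u (zt s) - 1 / 2 ≤ Real.exp |s - t| * (u (zt t) - 1 / 2)) ∧
    (∀ t δ : ℝ, 0 < δ →
      (j (zt t) (zt (t + δ)) - 1) * u (zt (t + δ)) + (j (zt t) (zt (t - δ)) - 1) * u (zt (t - δ)) ≤
        2 * Real.cosh δ * (u (zt t) - 1 / 2) - (u (zt (t + δ)) - 1 / 2)
          - (u (zt (t - δ)) - 1 / 2)) ∧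
    (∀ s t : ℝ, 1 ≤ j (zt t) (zt s) ∧ 1 / 2 ≤ u (zt s))

/-- **GE2** (one real variable).  Write `w = u - 1/2 ≥ 0`.
*Case 1*: `w(t₀) = 0` for some `t₀`.  Then `w = 0` everywhere, the inequality gives
`(j(t,t+δ)-1)u(t+δ) + (j(t,t-δ)-1)u(t-δ) ≤ 0` with both terms `≥ 0` and `u > 0`, so both `j` are
`1`, the liminf is `0`; take `q = 0`.
*Case 2*: `w > 0` everywhere.  `v = log w` satisfies `|v(s)-v(t)| ≤ |s-t|`, so it is continuous.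
Fix `t ∈ [0,L]`, `δ > 0`, `wp = w(t+δ)`, `wm = w(t-δ)`, `up = u(t+δ)`,
`um = u(t-δ)`, both `≥ e^{-δ} u(t)`, `jp = j t (t+δ)`, `jm = j t (t-δ)`, both `≥ 1`:
`jp + jm - 2 ≤ (e^δ / u(t)) [(jp-1) up + (jm-1) um] ≤ e^δ (w / u) [2 cosh δ - wp / w - wm / w]
≤ e^δ (w/u) [2(cosh δ - 1) + 2v(t) - v(t+δ) - v(t-δ)]` (`x ≥ 1 + log x`), and
`w/u = (2 - 1/u)/2 ≤ η/2`; the last bracket is `≥` the previous one, which is `≥ 0`
(if `w/u > 0`), so `jp + jm - 2 ≤ e^δ (η/2) [2(cosh δ - 1) + 2v(t) - v(t+δ) - v(t-δ)] =: E_δ(t)`,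
`E_δ` continuous and `≥ 0` on `[0,L]`.
`q(t) = liminf_n ofReal (E_{1/(n+1)}(t) (n+1)²)` is measurable and `≥` the liminf over
`δ → 0+` (a liminf along a sequence is at least the liminf along the filter).  Fatou
(`lintegral_liminf_le`): `∫⁻_{(0,L)} q ≤ liminf ∫⁻ ofReal (E_δ/δ²)`, and
`∫_0^L (2v(t)-v(t+δ)-v(t-δ)) dt = ∫_0^L g(t-δ) dt - ∫_0^L g(t) dt` with `g(t) = v(t+δ)-v(t)`,
`|g| ≤ δ`, equals `∫_{-δ}^0 g - ∫_{L-δ}^L g ≤ 2δ²`.  So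
`∫_0^L E_δ/δ² ≤ e^δ (η/2) (2 L (cosh δ - 1)/δ² + 2) → (η/2)(L + 2)`.
(`η ≥ 0` since `2 - 1/u ≥ 0`.) -/
def St_GE2 : Prop :=
  ∀ (u : ℝ → ℝ) (j : ℝ → ℝ → ℝ) (L η : ℝ), 0 < L →
    (∀ t, 1 / 2 ≤ u t) → (∀ t s, 1 ≤ j t s) →
    (∀ s t, u s ≤ Real.exp |s - t| * u t) →
    (∀ s t, u s - 1 / 2 ≤ Real.exp |s - t| * (u t - 1 / 2)) →
    (∀ t δ, 0 < δ → (j t (t + δ) - 1) * u (t + δ) + (j t (t - δ) - 1) * u (t - δ) ≤
      2 * Real.cosh δ * (u t - 1 / 2) - (u (t + δ) - 1 / 2) - (u (t - δ) - 1 / 2)) →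
    (∀ t ∈ Icc 0 L, 2 - 1 / u t ≤ η) →
    ∃ q : ℝ → ℝ≥0∞, Measurable q ∧
      (∀ t ∈ Ioo 0 L,
        liminf (fun δ : ℝ => ENNReal.ofReal ((j t (t + δ) + j t (t - δ) - 2) / δ ^ 2)) (𝓝[>] 0)
          ≤ q t) ∧
      ∫⁻ t in Ioo 0 L, q t ≤ ENNReal.ofReal (η / 2 * (L + 2))

/-- **CS** (Cauchy-Schwarz).  `q₁ = q^{1/2}` (`ENNReal.rpow`); Hoelder
(`ENNReal.lintegral_mul_le_Lp_mul_Lq` with exponents `2, 2`) for `q₁ k^{1/2} * k^{-1/2}`, where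
`k` is a positive measurable weight on `(a,b)`: `∫ q₁ ≤ (∫ k q)^{1/2} (∫ 1/k)^{1/2}`. -/
def St_CS : Prop :=
  ∀ (q k : ℝ → ℝ≥0∞) (a b : ℝ), Measurable q → Measurable k →
    (∀ t ∈ Ioo a b, k t ≠ 0 ∧ k t ≠ ∞) →
    ∃ q₁ : ℝ → ℝ≥0∞, Measurable q₁ ∧ (∀ t, q₁ t ^ 2 = q t) ∧
      ∫⁻ t in Ioo a b, q₁ t ≤
        (∫⁻ t in Ioo a b, k t * q t) ^ (1 / 2 : ℝ) * (∫⁻ t in Ioo a b, (k t)⁻¹) ^ (1 / 2 : ℝ)

/-! ## Part D: random rays -/

/-- **RA1**.  For `x < 0` write `W(x,θ) = u(e^{x+iθ}) - 1/2`, `p = e^{x+iθ} ∈ 𝔻`, `G` the function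
of `Pot` for `p`.
(1) *Harnack in the half plane*: for `ξ ∈ 𝔻` let `m(ξ) = (1-ξ)/(1+ξ)`, `Re m(ξ) > 0`, so
`K(ξ) = G(exp (x m(ξ) + iθ)) - 1/2` is holomorphic on `𝔻` with `Re K ≥ 0`, `K(0) = G(p) - 1/2`.
For `x' < 0`, `ξ = (x-x')/(x+x')` is real, `|ξ| < 1`, `x m(ξ) = x'`, and
`(1+|ξ|)/(1-|ξ|) = max (x/x') (x'/x)`.  St_HK (first item):
`W(x',θ) ≤ Re K(ξ) ≤ max (x/x') (x'/x) W(x,θ)`.
(2) *Four points*: `F(ζ) = G(exp (x + iθ + |x| ζ)) - 1/2`, holomorphic on `𝔻` (the exponent has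
negative real part), `Re F ≥ 0`, `Re F(0) = W(x,θ)`.  For `0 < δ < -x`, `τ = δ/(-x) ∈ (0,1)`:
`F(±τ) = G(e^{(x±δ)+iθ}) - 1/2`, `F(±iτ) = G(e^{x+i(θ±δ)}) - 1/2`, with real part
`≥ W(x,θ±δ)`.  Third item of St_HK:
`Re F(τ) + Re F(-τ) + W(x,θ+δ) + W(x,θ-δ) ≤ 4 (1+τ⁴)/(1-τ⁴) W(x,θ)`, and
`Re F(±τ) = (j p p^± - 1) u(p^±) + W(x±δ,θ)`, `p^± = e^{x±δ+iθ}`; finally `u ≥ 1/2` and `j ≥ 1`
give `(j p p^± - 1) ≤ 2 (j p p^± - 1) u(p^±)`.
(3) `j ≥ 1` and `u ≥ 1/2` on `𝔻`. -/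
def St_RA1 : Prop :=
  ∀ (u : ℂ → ℝ) (j : ℂ → ℂ → ℝ), Pot u j →
    (∀ x x' θ : ℝ, x < 0 → x' < 0 →
      u (pt x' θ) - 1 / 2 ≤ max (x / x') (x' / x) * (u (pt x θ) - 1 / 2)) ∧
    (∀ x θ δ : ℝ, x < 0 → 0 < δ → δ < -x →
      (j (pt x θ) (pt (x + δ) θ) + j (pt x θ) (pt (x - δ) θ) - 2) ≤
        2 * (4 * ((1 + (δ / (-x)) ^ 4) / (1 - (δ / (-x)) ^ 4)) * (u (pt x θ) - 1 / 2)
          - (u (pt (x + δ) θ) - 1 / 2) - (u (pt (x - δ) θ) - 1 / 2)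
          - (u (pt x (θ + δ)) - 1 / 2) - (u (pt x (θ - δ)) - 1 / 2))) ∧
    (∀ x y θ : ℝ, x < 0 → y < 0 → 1 ≤ j (pt x θ) (pt y θ))

/-- **RA2** (continuity).  Let `p ∈ 𝔻`.  For `z, p ∈ 𝔻` St_HK (first item) applied to
`ζ ↦ G(φ(ζ))` with `φ(ζ) = (z - ζ)/(1 - z̄ ζ)` (automorphism of `𝔻`, `φ(0) = z`,
`φ(ζ₀) = p` for `ζ₀ = (z-p)/(1 - z̄ p)·(unimodular)`, indeed `φ` is an involution so
`ζ₀ = φ(p)`, `|ζ₀| = |z-p|/|1 - z̄ p| → 0` as `z → p`), `G` the function of `Pot` for `z`: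
`u(p) ≤ Re G(p) ≤ (1+|ζ₀|)/(1-|ζ₀|) u(z)`, and with the roles exchanged
`u(z) ≤ (1+|ζ₀|)/(1-|ζ₀|) u(p)`.  So `u(z) → u(p)` as `z → p`. -/
def St_RA2 : Prop :=
  ∀ (u : ℂ → ℝ) (j : ℂ → ℂ → ℝ), Pot u j → ContinuousOn u (Metric.ball 0 1)

/-- **RA3** (monotonicity).  Let `x < x' < 0`, `B` a bound of `M` on `(-∞, x']`.  For `n` large
`δ = (x'-x)/n < -x'/2`.  For an integer `k ≤ n-1` let `x_k = x + kδ ≤ x' - δ`,
`D_k = M(x_{k+1}) - M(x_k)`.  The hypothesis at `x_k` gives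
`D_k - D_{k-1} ≤ 9 (δ/|x_k|)⁴ M(x_k) ≤ 9 B δ⁴/|x_k|⁴`.  So for `j < k`:
`D_k ≤ D_j + E`, `E = Σ_{i ≤ k} 9 B δ⁴/|x_i|⁴ ≤ 9 B δ⁴ Σ_{i≥0} (|x'| + iδ)^{-4}
≤ 9 B δ⁴ (|x'|^{-4} + 1/(3 δ |x'|³)) ≤ C δ³` (`C` independent of `n`, `k`, `j`).
Sum over `j = k-m, …, k-1`: `m D_k ≤ M(x_k) - M(x_{k-m}) + m C δ³ ≤ B + m C δ³`; divide by `m` and let
`m → ∞`: `D_k ≤ C δ³`.  Sum over `k = 0, …, n-1`:
`M(x') - M(x) ≤ n C δ³ = C (x'-x) δ² → 0` as `n → ∞`. -/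
def St_RA3 : Prop :=
  ∀ M : ℝ → ℝ, (∀ x < 0, 0 ≤ M x) → (∀ x < 0, ∃ B : ℝ, ∀ x' ≤ x, M x' ≤ B) →
    (∀ x δ : ℝ, x < 0 → 0 < δ → δ < -x / 2 →
      M (x + δ) + M (x - δ) ≤ 2 * M x + 9 * (δ / (-x)) ^ 4 * M x) →
    AntitoneOn M (Iio 0)

/-- **RA4** (the weighted integral).  `α < β < 0`, `ω(x) = -x`, `0 < δ < -β/2`.
`I(δ) = ∫_α^β ω(x)(2M(x) - M(x+δ) - M(x-δ)) dx`.  Substituting `y = x ± δ`
(`ω(y-δ) = ω(y)+δ`, `ω(y+δ) = ω(y)-δ`) one finds `I = I_α + I_β`,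
`I_α = ∫_α^{α+δ} ωM - ∫_{α-δ}^α ωM + δ ∫_{α-δ}^{α+δ} M`,
`I_β = ∫_{β-δ}^β ωM - ∫_β^{β+δ} ωM - δ ∫_{β-δ}^{β+δ} M`.
*At α*: `ω(α+t) = |α|-t`, `ω(α-t) = |α|+t`, `M(α+t) ≤ M(α) ≤ M(α-t)`, so
`∫_α^{α+δ} ωM - ∫_{α-δ}^α ωM = ∫_0^δ [(|α|-t)M(α+t) - (|α|+t)M(α-t)] dt ≤ ∫_0^δ -2t M(α) dt
= -δ² M(α)`, and `δ ∫_{α-δ}^{α+δ} M ≤ 2δ² M(α-δ)`: `I_α ≤ δ² (2M(α-δ) - M(α))`.
*At β*: `M(β-t) ≤ M(β+t) (|β|+t)/(|β|-t)`, so
`(|β|+t)M(β-t) - (|β|-t)M(β+t) ≤ M(β+t) 4|β|t/(|β|-t) ≤ M(β) 4|β|t/(|β|-δ)`, integral over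
`[0,δ]` at most `2δ² M(β) |β|/(|β|-δ)`; and `δ ∫_{β-δ}^{β+δ} M ≥ 2δ² M(β+δ)`.
So `I_β ≤ δ² (2M(β)|β|/(|β|-δ) - 2M(β+δ))`.
Since `M` is continuous at `α` and `β`, `I(δ)/δ² ≤ M(α) + ε` for small `δ`. -/
def St_RA4 : Prop :=
  ∀ (M : ℝ → ℝ) (α β : ℝ), α < β → β < 0 → (∀ x < 0, 0 ≤ M x) → ContinuousOn M (Iio 0) →
    AntitoneOn M (Iio 0) →
    (∀ x x' : ℝ, x < 0 → x' < 0 → M x' ≤ max (x / x') (x' / x) * M x) →
    ∀ ε : ℝ, 0 < ε → ∀ᶠ δ : ℝ in 𝓝[>] 0,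
      (∫ x in α..β, ((-x) * (2 * M x - M (x + δ) - M (x - δ)) / δ ^ 2)) ≤ M α + ε

/-- Right side of the four point inequality divided by `δ²`. -/
noncomputable def Efour (u : ℂ → ℝ) (δ x θ : ℝ) : ℝ :=
  2 * (4 * ((1 + (δ / (-x)) ^ 4) / (1 - (δ / (-x)) ^ 4)) * (u (pt x θ) - 1 / 2)
    - (u (pt (x + δ) θ) - 1 / 2) - (u (pt (x - δ) θ) - 1 / 2)
    - (u (pt x (θ + δ)) - 1 / 2) - (u (pt x (θ - δ)) - 1 / 2)) / δ ^ 2

/-- **RA5** (integrated four point inequality).  `M(x) = ∫_0^{2π} (u(e^{x+iθ}) - 1/2) dθ`.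
(1) `M` is continuous on `(-∞,0)` (continuity of `u`, compactness), `≥ 0`, and for each
`x < 0` bounded on `(-∞,x]` (`u` is bounded on the compact disc `|z| ≤ e^x`);
`M(x') ≤ max (x/x') (x'/x) M(x)` by integrating St_RA1 (1).
(2) by periodicity `∫_0^{2π} (u(e^{x+i(θ±δ)}) - 1/2) dθ = M(x)`
(`Function.Periodic.intervalIntegral_add_eq`), so for `0 < δ < -x/2`, `τ = δ/(-x) < 1/2`,
`∫_0^{2π} Efour u δ x θ dθ = (2/δ²) [2M(x) - M(x+δ) - M(x-δ) + (8τ⁴/(1-τ⁴)) M(x)]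
≤ (2/δ²) [2M(x) - M(x+δ) - M(x-δ) + 9 τ⁴ M(x)]`, and it is `≥ 0` because the integrand is
(`Efour ≥ 0` by St_RA1 (2), (3)).  This gives the hypothesis of St_RA3 (up to the factor
`2/δ² > 0`). -/
def St_RA5 : Prop :=
  ∀ (u : ℂ → ℝ) (j : ℂ → ℂ → ℝ), Pot u j → ∃ M : ℝ → ℝ,
    (∀ x, M x = ∫ θ in (0 : ℝ)..(2 * Real.pi), (u (pt x θ) - 1 / 2)) ∧
    (∀ x < 0, 0 ≤ M x) ∧ ContinuousOn M (Iio 0) ∧ (∀ x < 0, ∃ B : ℝ, ∀ x' ≤ x, M x' ≤ B) ∧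
    (∀ x x' : ℝ, x < 0 → x' < 0 → M x' ≤ max (x / x') (x' / x) * M x) ∧
    ∀ x δ : ℝ, x < 0 → 0 < δ → δ < -x / 2 →
      0 ≤ ∫ θ in (0 : ℝ)..(2 * Real.pi), Efour u δ x θ ∧
      (∫ θ in (0 : ℝ)..(2 * Real.pi), Efour u δ x θ) ≤
        2 * (2 * M x - M (x + δ) - M (x - δ) + 9 * (δ / (-x)) ^ 4 * M x) / δ ^ 2

/-- `Q_n(θ,x)`: the four point majorant with `δ = 1/(n+1)`, where it makes sense. -/
noncomputable def Qn (u : ℂ → ℝ) (n : ℕ) (θ x : ℝ) : ℝ≥0∞ := by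
  classical
  exact if x < 0 ∧ (1 : ℝ) / (n + 1) < -x / 2 then
    ENNReal.ofReal (Efour u (1 / ((n : ℝ) + 1)) x θ) else 0

/-- **RA6A** (measurability, pointwise bound).  (1) The set `{(θ,x) | x < 0, 1/(n+1) < -x/2}` is
open, on it `(θ,x) ↦ Efour u δ_n x θ` is continuous (`u` is continuous on `𝔻`, St_RA2;
`pt x θ ∈ 𝔻` iff `x < 0`; all the points involved have negative first coordinate, and
`1 - (δ/(-x))⁴ ≠ 0`), so `Q_n` is measurable (`Measurable.ite`/`ContinuousOn` on a measurable set: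
`ContinuousOn.measurable_piecewise`).
(2) Let `x < 0`.  For `n` large `1/(n+1) < -x/2`, and
`Q_n(θ,x) ≥ ofReal ((j p p^+ + j p p^- - 2)/δ_n²)` by St_RA1 (2).  The sequence `δ_n` tends to `0`
within `(0,∞)`, so the liminf of a function along `𝓝[>] 0` is at most its liminf along the
sequence (`liminf_le_liminf_of_le` with `map δ atTop ≤ 𝓝[>] 0`), which is at most
`liminf Q_n(θ,x)` (eventual inequality). -/
def St_RA6A : Prop :=
  ∀ (u : ℂ → ℝ) (j : ℂ → ℂ → ℝ), Pot u j →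
    (∀ n : ℕ, Measurable (Function.uncurry (Qn u n))) ∧
    ∀ θ x : ℝ, x < 0 →
      liminf (fun δ : ℝ => ENNReal.ofReal
        ((j (pt x θ) (pt (x + δ) θ) + j (pt x θ) (pt (x - δ) θ) - 2) / δ ^ 2)) (𝓝[>] 0) ≤
        liminf (fun n : ℕ => Qn u n θ x) atTop

/-- **RA6B** (integral of `Q_n`).  Let `0 < y₁ < y`, `ε > 0`, `δ = 1/(n+1)`.  For `n` large
`δ < y₁/2`, so for all `x ∈ (-y,-y₁)` the condition in `Qn` holds; `Efour u δ x θ ≥ 0` by St_RA1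
(2), (3), and it is continuous in `(x,θ)` on `[-y,-y₁] × [0,2π]`.  By Tonelli/Fubini
(`lintegral_lintegral_swap`, then `ofReal_integral_eq_lintegral_ofReal`)
`∫⁻_θ ∫⁻_x ofReal(-x) Q_n = ∫⁻_{x} ofReal(-x) ofReal (∫_0^{2π} Efour u δ x θ dθ)
≤ ofReal (∫_{-y}^{-y₁} 2(-x)(2M(x)-M(x+δ)-M(x-δ))/δ² dx + ∫_{-y}^{-y₁} 18 (-x) δ² x^{-4} M(x) dx)`
(St_RA5, last item; all functions continuous in `x`); the last integral tends to `0` as
`n → ∞` and the first is at most `2 (M(-y) + ε)` for `n` large by St_RA4 with `α = -y`,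
`β = -y₁`.  The hypotheses of St_RA4 are in St_RA5 and St_RA3 (for St_RA3: St_RA5 last item gives
`0 ≤ 2M(x) - M(x+δ) - M(x-δ) + 9τ⁴M(x)`). -/
def St_RA6B : Prop :=
  ∀ (u : ℂ → ℝ) (j : ℂ → ℂ → ℝ), Pot u j → ∀ y y₁ ε : ℝ, 0 < y₁ → y₁ < y → 0 < ε →
    ∀ᶠ n : ℕ in atTop,
      ∫⁻ θ in Ioo 0 (2 * Real.pi), ∫⁻ x in Ioo (-y) (-y₁), ENNReal.ofReal (-x) * Qn u n θ x ≤
        ENNReal.ofReal
          (2 * (∫ θ in (0 : ℝ)..(2 * Real.pi), (u (pt (-y) θ) - 1 / 2)) + ε)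

/-- **RA6** (Fatou).  `q(θ,x) = liminf_n Q_n(θ,x)`, jointly measurable
(`Measurable.liminf`/`measurable_liminf`), pointwise bound St_RA6A.
*Integral*: for `0 < y₁ < y` Fatou's lemma twice (`lintegral_liminf_le`; or once on the product,
`lintegral_prod`; `ofReal(-x) * liminf Q_n = liminf (ofReal(-x) * Q_n)`, at least
`c * liminf ≤ liminf (c * ·)`, `ENNReal.mul_liminf_le` or directly) gives
`∫⁻_θ ∫⁻_{x ∈ (-y,-y₁)} ofReal(-x) q ≤ liminf_n ∫⁻_θ ∫⁻_x ofReal(-x) Q_n ≤ ofReal (2M(-y) + ε)` for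
every `ε > 0` (St_RA6B), hence `≤ ofReal (2M(-y))`, `2 M(-y) = ∫_0^{2π} (2u(pt (-y) θ) - 1) dθ`, and
`ofReal` of it is `∫⁻_θ ofReal (2u - 1)` (continuous nonnegative integrand, St_RA2;
interval integral over `(0,2π)` equals the set integral over `Ioo`).
Then let `y₁ = y/(k+2) ↓ 0`: the sets `(-y, -y₁)` increase to `(-y,0)`; monotone convergence
(`lintegral_iUnion_of_directed`/`setLIntegral_iUnion_of_directed` for the product measure after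
writing the iterated integral as an integral over the product, or `lintegral_iSup` twice). -/
def St_RA6 : Prop :=
  ∀ (u : ℂ → ℝ) (j : ℂ → ℂ → ℝ), Pot u j → ∃ q : ℝ → ℝ → ℝ≥0∞,
    Measurable (Function.uncurry q) ∧
    (∀ θ x : ℝ, x < 0 →
      liminf (fun δ : ℝ => ENNReal.ofReal
        ((j (pt x θ) (pt (x + δ) θ) + j (pt x θ) (pt (x - δ) θ) - 2) / δ ^ 2)) (𝓝[>] 0) ≤ q θ x) ∧
    ∀ y : ℝ, 0 < y →
      ∫⁻ θ in Ioo 0 (2 * Real.pi), ∫⁻ x in Ioo (-y) 0, ENNReal.ofReal (-x) * q θ x ≤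
        ∫⁻ θ in Ioo 0 (2 * Real.pi), ENNReal.ofReal (2 * u (pt (-y) θ) - 1)

/-! ## Part E: assembly -/

/-- **F1** (first theorem).  If `L = 0` use `PressureLE.conj` (with `B = 1`) or the constant path.
Let `L > 0`.  `u z = 1/ent (f z)`, `j p z = J (U (f p)) (f p) (f z)`: `Pot u j` by St_PO (with
St_QF: all `f z` satisfy `Facts`).  St_GE1 and St_GE2 for `u ∘ zt`, `(t,s) ↦ j (zt t) (zt s)`
(`2 - 1/u = 2 - ent`) give `q`, and St_CS with `k = 1` gives `q₁` with `q₁² = q` and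
`∫ q₁ ≤ (η/2 (L+2))^{1/2} L^{1/2}`.  The path is `c(t) = f (zt t)` on `[0,L]`: its entries are
smooth because `z ↦ (f z γ) i j` is holomorphic on `𝔻` (so real-smooth there) and `zt` is smooth
with values in `𝔻`.  `speedSq U c t` is by definition the liminf in St_GE2.  `zt 0 = 0`.
Conclusion by `PressureLE.path` and `sInf_le`. -/
def St_F1 : Prop :=
  ∀ g : ℕ, 2 ≤ g → ∀ U : (SurfaceGroup g →* SL) → Ultrafilter ℝ,
    (∀ ρ, IsQF ρ → Adapted (U ρ) ρ) →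
    ∀ f : ℂ → SurfaceGroup g →* SL, HolDisc f → ∀ L η : ℝ, 0 ≤ L →
      (∀ t ∈ Icc 0 L, 2 - ent (f (zt t)) ≤ η) →
      LengthLE U (fun t => f (zt t)) 0 L (ENNReal.ofReal (Real.sqrt (η / 2 * L * (L + 2)))) ∧
      pressureDist U (f 0) (f (zt L)) ≤ ENNReal.ofReal (Real.sqrt (η / 2 * L * (L + 2)))

/-- **F2** (second theorem, energy).  `Pot u j` as in St_F1, then St_RA6; for `|z| < 1`,
`2u - 1 = (2 - ent)/ent`. -/
def St_F2 : Prop :=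
  ∀ g : ℕ, 2 ≤ g → ∀ U : (SurfaceGroup g →* SL) → Ultrafilter ℝ,
    (∀ ρ, IsQF ρ → Adapted (U ρ) ρ) →
    ∀ f : ℂ → SurfaceGroup g →* SL, HolDisc f →
      ∃ q : ℝ → ℝ → ℝ≥0∞, Measurable (Function.uncurry q) ∧
        (∀ θ x : ℝ, x < 0 → speedSq U (fun s => f (pt s θ)) x ≤ q θ x) ∧
        ∀ y : ℝ, 0 < y →
          ∫⁻ θ in Ioo 0 (2 * Real.pi), ∫⁻ x in Ioo (-y) 0, ENNReal.ofReal (-x) * q θ x ≤
            ∫⁻ θ in Ioo 0 (2 * Real.pi),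
              ENNReal.ofReal ((2 - ent (f (pt (-y) θ))) / ent (f (pt (-y) θ)))

/-- **F3** (almost every ray).  Let `q` be as in St_F2.  For `y = 1` the right side is finite:
`(2 - ent)/ent ≤ 2/ent = 2u` and `u` is continuous on `𝔻` (St_RA2), hence bounded on the circle
`|z| = e^{-1}`.  So for almost every `θ ∈ (0,2π)` the integral
`E_θ = ∫⁻_{x ∈ (-1,0)} ofReal(-x) q θ x` is finite (`ae_lt_top`).  Fix such a `θ`; let `ε > 0`.  The tail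
`∫⁻_{x ∈ (x₀,0)} ofReal(-x) q θ x → 0` as `x₀ ↑ 0` (absolute continuity of the integral, or
continuity from above), choose `x₀ ∈ (-1,0)` with tail `≤ ε²`.
`D₀ = pressureDist U (f 0) (f (pt x₀ θ)) < ∞` by St_F1 applied to the rotated disc
`z ↦ f (e^{iθ} z)` (a holomorphic disc) with `zt L = e^{x₀}`, `η = 2` (`ent > 0` by `Facts`).
For `x ∈ (x₀, 0)`: the path `s ↦ f (pt s θ)`, `s ∈ [x₀,x]`, is smooth and by St_CS with
`k(s) = ofReal(-s)`: `∫⁻_{(x₀,x)} q₁ ≤ (ε²)^{1/2} (∫_{x₀}^x ds/(-s))^{1/2} = ε (log (x₀/x))^{1/2}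
≤ ε (log (1/(-x)))^{1/2}`.  So (triangle inequality: `PressureLE.trans`)
`pressureDist U (f 0) (f (pt x θ)) ≤ D₀ + ofReal (ε sqrt (log (1/(-x))))`; divide by
`ofReal (sqrt (log (1/(-x)))) → ∞`: the limsup is `≤ ofReal ε`.
The statement is for a.e. `θ ∈ (0, 2π)`; the functions are `2π`-periodic in `θ` so it holds for
a.e. real `θ`, but only `Ioo 0 (2π)` is claimed. -/
def St_F3 : Prop :=
  ∀ g : ℕ, 2 ≤ g → ∀ U : (SurfaceGroup g →* SL) → Ultrafilter ℝ,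
    (∀ ρ, IsQF ρ → Adapted (U ρ) ρ) →
    ∀ f : ℂ → SurfaceGroup g →* SL, HolDisc f →
      ∀ᵐ θ : ℝ ∂(volume.restrict (Ioo 0 (2 * Real.pi))),
        Tendsto (fun x : ℝ => pressureDist U (f 0) (f (pt x θ)) /
          ENNReal.ofReal (Real.sqrt (Real.log (1 / (-x))))) (𝓝[<] 0) (𝓝 0)

end Pool.Agent.Helper35.PM
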