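import Pool.Agent.Helper35.PQF.St2

/-!
# Project PQF: the detour inequality (third theorem).  Statements with proofs in the docstrings.
-/

open Filter Topology Matrix Set MeasureTheory
open scoped ENNReal ComplexOrder

namespace Pool.Agent.Helper35.PM

/-- Mean of `(2 - h)/h` over the circle `|z| = e^{-y}` in the disc `f`. -/
noncomputable def mdef {g : ℕ} (f : ℂ → SurfaceGroup g →* SL) (y : ℝ) : ℝ :=
  (2 * Real.pi)⁻¹ * ∫ θ in (0 : ℝ)..(2 * Real.pi),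
    ((2 - ent (f (pt (-y) θ))) / ent (f (pt (-y) θ)))

/-- Bound of F4 for the disc `f` and length `L`:
`sqrt (S (S + ψ(0) + ψ(L)) / 2)`, `ψ(t) = sqrt (2 - h(f(z_t)))`, `S = ∫_0^L ψ`. -/
noncomputable def cost {g : ℕ} (f : ℂ → SurfaceGroup g →* SL) (L : ℝ) : ℝ :=
  Real.sqrt
    ((∫ t in (0 : ℝ)..L, Real.sqrt (2 - ent (f (zt t)))) *
      ((∫ t in (0 : ℝ)..L, Real.sqrt (2 - ent (f (zt t)))) +
        Real.sqrt (2 - ent (f (zt 0))) + Real.sqrt (2 - ent (f (zt L)))) / 2)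

/-- **SY** (symmetry and triangle inequality).  (1) *Symmetry of* `PressureLE`, by induction:
`conj`: replace `B` by `B⁻¹` (`B⁻¹ (B ρ B⁻¹) B = ρ`; the sign stays).  `path c a b`: the reversed
path `c'(t) = c(a + b - t)` is smooth on `[a,b]` (composition with an affine map preserving
`Icc a b`), and `speedSq U c' t = speedSq U c (a+b-t)`: the function of `δ` in the definition is
unchanged because it is symmetric in `δ ↦ -δ` (`c'(t+δ) = c((a+b-t) - δ)`), so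
`q'(t) = q(a+b-t)` works, the integral over `Ioo a b` is the same (reflection
`t ↦ a+b-t` preserves the measure; `lintegral` version:
`MeasureTheory.lintegral_sub_left_eq_self`, applied to the indicator function).
`trans`: `B + B' = B' + B`.  So `pressureDist` is symmetric.
(2) *Triangle inequality*: for `h ∈ {B | PressureLE ρ σ B}`, `h' ∈ {B' | PressureLE σ τ B'}` one has
`PressureLE ρ τ (B + B')`; take infima (`ENNReal.sInf_add`/`ENNReal.add_sInf`, or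
`ENNReal.le_of_forall_pos_le_add` when both are finite; see `dist_add` in
`Pool/Agent/Helper12/PM/M_F3.lean`). -/
def St_SY : Prop :=
  ∀ (Γ : Type) [Group Γ] (U : (Γ →* SL) → Ultrafilter ℝ),
    (∀ ρ σ, pressureDist U ρ σ = pressureDist U σ ρ) ∧
    ∀ ρ σ τ, pressureDist U ρ τ ≤ pressureDist U ρ σ + pressureDist U σ τ

/-- **RM** (mean cost of a random ray).  Let `f` be a holomorphic disc, `y 0 = 1 ≥ y 1 ≥ … > 0`.
Let `E` be as in `Pool.Agent.Helper35.PM.rays` (file PQF/Rays.lean; its conclusion is the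
hypothesis `hE` here): `E y` measurable, `∫⁻_θ E y θ ≤ ∫⁻_θ ofReal ((2-h)/h (pt (-y) θ))`, and
`d(f(pt (-y₂) θ), f(pt (-y₁) θ)) ≤ (E y₂ θ)^{1/2} ofReal (sqrt (log (y₂/y₁)))`.
*First piece*: `d(f 0, f (pt (-1) θ)) ≤ ofReal (3/2)` for every `θ`: the rotated disc
`z ↦ f (e^{iθ} z)` is a holomorphic disc (see `dist_lt` in `Pool/Agent/Helper12/PM/M_F3.lean`), and
`zt L₁ = e^{-1}` with `L₁ = log ((1+e⁻¹)/(1-e⁻¹)) < 0.8` (`exists_zt` there gives exactly this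
`L₁`; `(1+e⁻¹)/(1-e⁻¹) = (e+1)/(e-1) < 2.17 < e^{0.8}`, as `e > 2.71`), so St_F1 with `η = 2`
bounds the distance by `sqrt (L₁ (L₁+2)) ≤ sqrt (0.8 * 2.8) = sqrt 2.24 < 3/2`.
*Other pieces*: `a(θ) = ofReal (3/2) + Σ_{k<n} (E (y k) θ)^{1/2} ofReal (sqrt (log (y k / y (k+1))))`,
measurable, and `d(f 0, f (pt (-y n) θ)) ≤ a(θ)` by the triangle inequality (induction on `n`;
`y 0 = 1`).
*Integral*: by Cauchy-Schwarz (`ENNReal.lintegral_mul_le_Lp_mul_Lq` or Jensen)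
`∫⁻_{(0,2π)} (E (y k) θ)^{1/2} dθ ≤ (2π)^{1/2} (∫⁻ E (y k))^{1/2} ≤ (2π)^{1/2} (2π mdef f (y k))^{1/2}
= 2π sqrt (mdef f (y k))`, where
`∫⁻_θ ofReal ((2-h)/h) = ofReal (2π mdef f (y k))` because the integrand is continuous and `≥ 0`
(`(2-h)/h = 2/h - 1`, `1/h` is continuous along the circle by St_RA2 and St_PO, `h ≤ 2`). -/
def St_RM : Prop :=
  ∀ g : ℕ, 2 ≤ g → ∀ U : (SurfaceGroup g →* SL) → Ultrafilter ℝ,
    (∀ ρ, IsQF ρ → Adapted (U ρ) ρ) →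
    ∀ f : ℂ → SurfaceGroup g →* SL, HolDisc f →
    (∃ E : ℝ → ℝ → ℝ≥0∞, (∀ y, 0 < y → Measurable (E y)) ∧
      (∀ y, 0 < y → ∫⁻ θ in Ioo 0 (2 * Real.pi), E y θ ≤ ∫⁻ θ in Ioo 0 (2 * Real.pi),
        ENNReal.ofReal ((2 - ent (f (pt (-y) θ))) / ent (f (pt (-y) θ)))) ∧
      (∀ θ y₁ y₂ : ℝ, 0 < y₁ → y₁ ≤ y₂ →
        pressureDist U (f (pt (-y₂) θ)) (f (pt (-y₁) θ)) ≤
          (E y₂ θ) ^ (1 / 2 : ℝ) * ENNReal.ofReal (Real.sqrt (Real.log (y₂ / y₁))))) →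
    ∀ (n : ℕ) (y : ℕ → ℝ), y 0 = 1 → Antitone y → (∀ k, 0 < y k) →
      ∃ a : ℝ → ℝ≥0∞, Measurable a ∧
        (∀ θ, pressureDist U (f 0) (f (pt (-(y n)) θ)) ≤ a θ) ∧
        ∫⁻ θ in Ioo 0 (2 * Real.pi), a θ ≤ ENNReal.ofReal (2 * Real.pi *
          (3 / 2 + ∑ k ∈ Finset.range n,
            Real.sqrt (mdef f (y k)) * Real.sqrt (Real.log (y k / y (k + 1)))))

/-- **JC** (joint continuity).  `F z w`, `z, w ∈ 𝔻`, holomorphic discs in each variable.  With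
`u(z,w) = 1/ent (F z w)`, for each `w` the function `u(·,w)`, and for each `z` the function
`u(z,·)`, is part of a `Pot` (St_PO, St_QF).  By St_GE1 (first item), for the disc
`z ↦ F z w`: `|log u(zt s, w) - log u(zt t, w)| ≤ |s-t|`, uniformly in `w`.  For the other variable
and fixed `t`, `w ↦ u(zt t, w)` is continuous on `𝔻` (St_RA2).  Hence
`(t, w) ↦ u(zt t, w)` is continuous on `ℝ × 𝔻` (continuous in `w` for fixed `t` and
equicontinuous in `t`: `|log u(zt s, w') - log u(zt t, w)| ≤ |s-t| + |log u(zt t,w') - log u(zt t,w)|`),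
and so is `ent (F (zt t) w)` (`> 0`).  With `w = pt (-y) θ`, `y > 0`, which is continuous in `θ`
and `2π`-periodic: `θ ↦ ∫_0^L sqrt (2 - ent (F (zt t) (pt (-y) θ))) dt` is continuous
(`intervalIntegral.continuous_parametric_intervalIntegral_of_continuous` or dominated
convergence), and therefore `θ ↦ cost (fun z => F z (pt (-y) θ)) L` is continuous, and `≥ 0`. -/
def St_JC : Prop :=
  ∀ g : ℕ, 2 ≤ g → ∀ U : (SurfaceGroup g →* SL) → Ultrafilter ℝ,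
    (∀ ρ, IsQF ρ → Adapted (U ρ) ρ) →
    ∀ F : ℂ → ℂ → SurfaceGroup g →* SL,
      (∀ z ∈ Metric.ball (0 : ℂ) 1, HolDisc (F z)) →
      (∀ w ∈ Metric.ball (0 : ℂ) 1, HolDisc (fun z => F z w)) →
      ∀ L y : ℝ, 0 ≤ L → 0 < y →
        Continuous (fun θ : ℝ => cost (fun z => F z (pt (-y) θ)) L)

/-- The energies of rays exist (proved: `Pool.Agent.Helper35.PM.rays` in PQF/Rays.lean). -/
def St_RY : Prop :=
  ∀ g : ℕ, 2 ≤ g → ∀ U : (SurfaceGroup g →* SL) → Ultrafilter ℝ,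
    (∀ ρ, IsQF ρ → Adapted (U ρ) ρ) →
    ∀ f : ℂ → SurfaceGroup g →* SL, HolDisc f →
    (∃ E : ℝ → ℝ → ℝ≥0∞, (∀ y, 0 < y → Measurable (E y)) ∧
      (∀ y, 0 < y → ∫⁻ θ in Ioo 0 (2 * Real.pi), E y θ ≤ ∫⁻ θ in Ioo 0 (2 * Real.pi),
        ENNReal.ofReal ((2 - ent (f (pt (-y) θ))) / ent (f (pt (-y) θ)))) ∧
      (∀ θ y₁ y₂ : ℝ, 0 < y₁ → y₁ ≤ y₂ →
        pressureDist U (f (pt (-y₂) θ)) (f (pt (-y₁) θ)) ≤
          (E y₂ θ) ^ (1 / 2 : ℝ) * ENNReal.ofReal (Real.sqrt (Real.log (y₂ / y₁)))))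

/-- **DT** (detour inequality; the hypothesis of St_RM is St_RY).  Fix `θ`, `w = pt (-(y n)) θ ∈ 𝔻`.  Triangle inequality and
symmetry (St_SY):
`d(F 0 0, F (zt L) 0) ≤ d(F 0 0, F 0 w) + d(F 0 w, F (zt L) w) + d(F (zt L) 0, F (zt L) w)`.
First and third term: `≤ a(θ)`, `≤ a'(θ)`, the functions of St_RM for the discs `F 0` and
`F (zt L)` (`zt L ∈ 𝔻`).  Second term: St_F4 for the disc `z ↦ F z w` (`F 0 w`, `zt 0 = 0`):
`≤ ofReal (cost (fun z => F z w) L)`.  Integrate over `θ ∈ (0,2π)`: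
`2π d ≤ ∫⁻ a + ∫⁻ a' + ∫⁻ ofReal (cost ..)` (`lintegral_add_left`; all functions are measurable,
St_JC), and `∫⁻ ofReal (cost) = ofReal (∫_0^{2π} cost)` (continuous, `≥ 0`).  Divide by `2π`. -/
def St_DT : Prop :=
  ∀ g : ℕ, 2 ≤ g → ∀ U : (SurfaceGroup g →* SL) → Ultrafilter ℝ,
    (∀ ρ, IsQF ρ → Adapted (U ρ) ρ) →
    ∀ F : ℂ → ℂ → SurfaceGroup g →* SL,
      (∀ z ∈ Metric.ball (0 : ℂ) 1, HolDisc (F z)) →
      (∀ w ∈ Metric.ball (0 : ℂ) 1, HolDisc (fun z => F z w)) →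
      ∀ L : ℝ, 0 ≤ L → ∀ (n : ℕ) (y : ℕ → ℝ), y 0 = 1 → Antitone y → (∀ k, 0 < y k) →
        pressureDist U (F 0 0) (F (zt L) 0) ≤ ENNReal.ofReal
          (3 + (∑ k ∈ Finset.range n, (Real.sqrt (mdef (F 0) (y k)) +
              Real.sqrt (mdef (F (zt L)) (y k))) * Real.sqrt (Real.log (y k / y (k + 1)))) +
            (2 * Real.pi)⁻¹ * ∫ θ in (0 : ℝ)..(2 * Real.pi),
              cost (fun z => F z (pt (-(y n)) θ)) L)

/-- **DC** (criterion).  Let `y k = exp (-(2^k - 1))`: `y 0 = 1`, antitone, positive,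
`log (y k / y (k+1)) = 2^k`, `1 + log (1/y k) = 2^k`.  By hypothesis
`mdef (F 0) (y k), mdef (F (zt L)) (y k) ≤ C (2^k)^{-a}`, so the `k`-th term of the sum in St_DT is at
most `2 sqrt (C 2^{-ak}) sqrt (2^k) = 2 sqrt C (2^{-(a-1)/2})^k`, and the sum is at most
`2 sqrt C / (1 - 2^{-(a-1)/2})`.  The last term of St_DT tends to `0` as `n → ∞`
(`y n → 0` within `(0,∞)`).  So
`d ≤ ofReal (3 + 2 sqrt C/(1 - 2^{-(a-1)/2}))` (`ge_of_tendsto`/`le_of_tendsto'`; `ofReal` is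
continuous). -/
def St_DC : Prop :=
  ∀ g : ℕ, 2 ≤ g → ∀ U : (SurfaceGroup g →* SL) → Ultrafilter ℝ,
    (∀ ρ, IsQF ρ → Adapted (U ρ) ρ) → ∀ C a : ℝ, 0 ≤ C → 1 < a →
    ∀ F : ℂ → ℂ → SurfaceGroup g →* SL,
      (∀ z ∈ Metric.ball (0 : ℂ) 1, HolDisc (F z)) →
      (∀ w ∈ Metric.ball (0 : ℂ) 1, HolDisc (fun z => F z w)) →
      ∀ L : ℝ, 0 ≤ L →
        (∀ y : ℝ, 0 < y → y ≤ 1 → mdef (F 0) y ≤ C * (1 + Real.log (1 / y)) ^ (-a) ∧
          mdef (F (zt L)) y ≤ C * (1 + Real.log (1 / y)) ^ (-a)) →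
        Tendsto (fun y : ℝ => ∫ θ in (0 : ℝ)..(2 * Real.pi),
          cost (fun z => F z (pt (-y) θ)) L) (𝓝[>] 0) (𝓝 0) →
        pressureDist U (F 0 0) (F (zt L) 0) ≤ ENNReal.ofReal
          (3 + 2 * Real.sqrt C / (1 - (2 : ℝ) ^ (-(a - 1) / 2)))

end Pool.Agent.Helper35.PM
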