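import Pool.Agent.Helper35.PQF.Rays
import Pool.Agent.Helper3.PM.M_RA1
import Pool.Agent.Helper4.PM.M_DP3
import Pool.Agent.Helper6.PM.M_DP4
import Pool.Agent.Helper8.PM.M_RA6A
import Pool.Agent.Helper12.PM.M_F3
import Pool.Agent.Helper13.PM.M_DP1
import Pool.Agent.Helper18.PM.M_RA3
import Pool.Agent.Helper24.PM.M_F1
import Pool.Agent.Helper24.PM.M_F2
import Pool.Agent.Helper24.PM.M_PO
import Pool.Agent.Helper26.PM.M_DP5
import Pool.Agent.Helper28.PM.M_LN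
import Pool.Agent.Helper29.PM.M_DP2
import Pool.Agent.Helper37.PM.M_HK
import Pool.Agent.Helper38.PQF.M_HS1
import Pool.Agent.Helper39.PM.M_RA2
import Pool.Agent.Helper41.PM.M_GR1
import Pool.Agent.Helper42.PM.M_AV1
import Pool.Agent.Helper42.PM.M_JG
import Pool.Agent.Helper45.PM.M_HL
import Pool.Agent.Helper48.PM.M_GR2
import Pool.Agent.Helper52.PM.M_RA4
import Pool.Agent.Helper52.PM.M_RA5
import Pool.Agent.Helper60.PM.M_CL
import Pool.Agent.Helper72.PM.M_RA6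
import Pool.Agent.Helper78.PM.M_CN2
import Pool.Agent.Helper78.PM.M_GE2
import Pool.Agent.Helper79.PM.M_CN1
import Pool.Agent.Helper80.PM.M_HS2
import Pool.Agent.Helper84.PM.M_EN
import Pool.Agent.Helper85.PM.M_CC
import Pool.Agent.Helper86.PM.M_AV2
import Pool.Agent.Helper86.PM.M_GE1
import Pool.Agent.Helper86.PM.M_CS
import Pool.Agent.Helper89.PM.M_QF
import Pool.Agent.Helper90.PM.M_RA6B
import Pool.Agent.Helper91.PM.M_FO
import Pool.Agent.Helper91.PM.M_UL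

/-! # Project PQF: assembly of the modules -/

open Filter Topology Matrix Set MeasureTheory
open scoped ENNReal ComplexOrder

namespace Pool.Agent.Helper35.PM

theorem hs1_ : St_HS1 := Pool.Agent.Helper38.PQF.hs1
theorem hs2_ : St_HS2 := Pool.Agent.Helper80.PM.hs2
theorem ln_ : St_LN := Pool.Agent.Helper28.PM.ln hs2_
theorem cn1_ : St_CN1 := Helper79.PM.cn1
theorem cn2_ : St_CN2 := Pool.Agent.Helper78.PM.cn2 hs1_ cn1_
theorem dp1_ : St_DP1 := Pool.Agent.Helper13.PM.dp1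
theorem dp2_ : St_DP2 := Pool.Agent.Helper29.PM.dp2 hs1_
theorem dp3_ : St_DP3 := Pool.Agent.Helper4.PM.dp3 hs2_ dp1_
theorem dp4_ : St_DP4 := Helper6.PM.dp4 hs1_ hs2_ dp1_
theorem dp5_ : St_DP5 := Pool.Agent.Helper26.PM.dp5
theorem fo_ : St_FO := Pool.Agent.Helper91.PM.fo hs1_ dp1_ dp2_ dp4_ dp5_
theorem cc_ : St_CC := Pool.Agent.Helper85.PM.cc hs2_ dp1_ dp2_ dp3_ fo_
theorem cl_ : St_CL := Pool.Agent.Helper60.PM.cl hs2_ ln_ cc_ cn2_
theorem gr1_ : St_GR1 := Helper41.PM.gr1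
theorem gr2_ : St_GR2 := Helper48.PM.gr2 hs1_ hs2_ ln_ gr1_
theorem en_ : St_EN := Pool.Agent.Helper84.PM.en
theorem qf_ : St_QF := Pool.Agent.Helper89.PM.qf hs2_ fo_ cl_ gr2_ en_
theorem hl_ : St_HL := Pool.Agent.Helper45.PM.hl hs2_
theorem hk_ : St_HK := Pool.Agent.Helper37.PM.hk
theorem ul_ : St_UL := Pool.Agent.Helper91.PM.ul hk_
theorem av1_ : St_AV1 := Pool.Agent.Helper42.PM.av1
theorem av2_ : St_AV2 := Helper86.PM.av2 hs2_ hl_
theorem jg_ : St_JG := Pool.Agent.Helper42.PM.jg hs2_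
theorem po_ : St_PO := Pool.Agent.Helper24.PM.po av1_ av2_ jg_ ul_
theorem ge1_ : St_GE1 := Helper86.PM.ge1 hk_
theorem ge2_ : St_GE2 := Pool.Agent.Helper78.PM.ge2
theorem cs_ : St_CS := Helper86.PM.cs
theorem ra1_ : St_RA1 := Pool.Agent.Helper3.PM.ra1 hk_
theorem ra2_ : St_RA2 := Pool.Agent.Helper39.PM.ra2 hk_
theorem ra3_ : St_RA3 := Helper18.PM.ra3
theorem ra4_ : St_RA4 := Pool.Agent.Helper52.PM.ra4
theorem ra5_ : St_RA5 := Pool.Agent.Helper52.PM.ra5 ra1_ ra2_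
theorem ra6a_ : St_RA6A := Helper8.PM.ra6a ra1_ ra2_
theorem ra6b_ : St_RA6B := Pool.Agent.Helper90.PM.ra6b ra1_ ra2_ ra3_ ra4_ ra5_
theorem ra6_ : St_RA6 := Pool.Agent.Helper72.PM.ra6 ra2_ ra6a_ ra6b_
theorem f1_ : St_F1 := Pool.Agent.Helper24.PM.f1 qf_ po_ ge1_ ge2_ cs_
theorem f2_ : St_F2 := Pool.Agent.Helper24.PM.f2 qf_ po_ ra6_
theorem f3_ : St_F3 := Pool.Agent.Helper12.PM.f3 qf_ po_ ra2_ f1_ f2_ cs_

/-- A family of adapted ultrafilters exists. -/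
theorem exists_family (g : ℕ) (hg : 2 ≤ g) : ∃ U : (SurfaceGroup g →* SL) → Ultrafilter ℝ,
    ∀ ρ, IsQF ρ → Adapted (U ρ) ρ := by
  classical
  have h : ∀ ρ : SurfaceGroup g →* SL, ∃ V : Ultrafilter ℝ, IsQF ρ → Adapted V ρ := by
    intro ρ
    by_cases hρ : IsQF ρ
    · obtain ⟨V, hV⟩ := (qf_ g hg ρ hρ).2.2.2.2.2.2
      exact ⟨V, fun _ => hV⟩
    · exact ⟨Classical.arbitrary _, fun h => absurd h hρ⟩
  choose U hU using h
  exact ⟨U, hU⟩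

theorem zt_zero : zt 0 = 0 := by simp [zt]

theorem zt_mem (t : ℝ) : zt t ∈ Metric.ball (0 : ℂ) 1 := by
  rw [mem_ball_zero_iff]
  unfold zt
  rw [Complex.norm_real, Real.norm_eq_abs]
  exact Real.abs_tanh_lt_one _

/-- Universal form of the first theorem. -/
theorem universal (g : ℕ) (hg : 2 ≤ g) (U : (SurfaceGroup g →* SL) → Ultrafilter ℝ)
    (hU : ∀ ρ, IsQF ρ → Adapted (U ρ) ρ) (R : ℝ) (ρ : SurfaceGroup g →* SL)
    (h : ∃ f : ℂ → SurfaceGroup g →* SL, HolDisc f ∧ f 0 = ρ ∧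
      ∃ L ∈ Icc 0 R, IsFuchsian (f (zt L))) :
    ∃ σ : SurfaceGroup g →* SL, IsQF σ ∧ IsFuchsian σ ∧
      pressureDist U ρ σ ≤ ENNReal.ofReal (Real.sqrt (R * (R + 2))) := by
  obtain ⟨f, hf, rfl, L, hL, hF⟩ := h
  refine ⟨f (zt L), hf.2 _ (zt_mem L), hF, ?_⟩
  refine ((f1_ g hg U hU f hf L 2 hL.1 fun t _ => ?_).2).trans ?_
  · have := (qf_ g hg _ (hf.2 _ (zt_mem t))).2.1
    linarith
  · refine ENNReal.ofReal_le_ofReal (Real.sqrt_le_sqrt ?_)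
    have h1 := hL.1
    have h2 := hL.2
    nlinarith

end Pool.Agent.Helper35.PM
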