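import Pool.Agent.Helper35.PQF.St3
import Pool.Agent.Helper42.PM.M_DT

/-! # Project PQF: joint continuity (JC) -/

open Filter Topology Matrix Set MeasureTheory
open scoped ENNReal ComplexOrder

namespace Pool.Agent.Helper35.PQFJC

open Pool.Agent.Helper35.PM

theorem joint (v : ℝ → ℝ → ℝ) (h2 : ∀ θ s t, v θ s ≤ Real.exp |s - t| * v θ t)
    (h3 : ∀ t, Continuous (fun θ => v θ t)) : Continuous (fun p : ℝ × ℝ => v p.1 p.2) := by
  rw [continuous_iff_continuousAt]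
  rintro ⟨θ₀, t₀⟩
  have hc : Continuous (fun p : ℝ × ℝ => v p.1 t₀) := (h3 t₀).comp continuous_fst
  have hup : Continuous (fun p : ℝ × ℝ => Real.exp |p.2 - t₀| * v p.1 t₀) := by
    refine Continuous.mul ?_ hc
    fun_prop
  have hlo : Continuous (fun p : ℝ × ℝ => Real.exp (-|p.2 - t₀|) * v p.1 t₀) := by
    refine Continuous.mul ?_ hc
    fun_prop
  have e1 : Tendsto (fun p : ℝ × ℝ => Real.exp |p.2 - t₀| * v p.1 t₀) (𝓝 (θ₀, t₀))
      (𝓝 (v θ₀ t₀)) := by
    have := hup.tendsto (θ₀, t₀)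
    simpa using this
  have e2 : Tendsto (fun p : ℝ × ℝ => Real.exp (-|p.2 - t₀|) * v p.1 t₀) (𝓝 (θ₀, t₀))
      (𝓝 (v θ₀ t₀)) := by
    have := hlo.tendsto (θ₀, t₀)
    simpa using this
  refine tendsto_of_tendsto_of_tendsto_of_le_of_le e2 e1 ?_ ?_
  · intro p
    have := h2 p.1 t₀ p.2
    rw [abs_sub_comm] at this
    calc Real.exp (-|p.2 - t₀|) * v p.1 t₀
        ≤ Real.exp (-|p.2 - t₀|) * (Real.exp |p.2 - t₀| * v p.1 p.2) :=
          mul_le_mul_of_nonneg_left this (Real.exp_pos _).le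
      _ = v p.1 p.2 := by
          rw [← mul_assoc, ← Real.exp_add]; simp
  · intro p
    exact h2 p.1 p.2 t₀

theorem param (ψ : ℝ → ℝ → ℝ) (h : Continuous (fun p : ℝ × ℝ => ψ p.1 p.2)) (L : ℝ) :
    Continuous (fun θ : ℝ => Real.sqrt ((∫ t in (0 : ℝ)..L, ψ θ t) *
      ((∫ t in (0 : ℝ)..L, ψ θ t) + ψ θ 0 + ψ θ L) / 2)) := by
  have h1 : Continuous (fun θ : ℝ => ∫ t in (0 : ℝ)..L, ψ θ t) :=
    intervalIntegral.continuous_parametric_intervalIntegral_of_continuous' h 0 L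
  have h2 : ∀ t, Continuous (fun θ => ψ θ t) := fun t =>
    h.comp (Continuous.prodMk continuous_id (continuous_const (y := t)))
  exact Real.continuous_sqrt.comp ((h1.mul ((h1.add (h2 0)).add (h2 L))).div_const 2)

theorem jc (qf : St_QF) (po : St_PO) (ge1 : St_GE1) (ra2 : St_RA2) : St_JC := by
  intro g hg U hU F hF1 hF2 L y hL hy
  have hpt : ∀ θ : ℝ, pt (-y) θ ∈ Metric.ball (0 : ℂ) 1 :=
    fun θ => Pool.Agent.Helper42.PM.dtpt_mem (by linarith) θ
  have hzt : ∀ t : ℝ, zt t ∈ Metric.ball (0 : ℂ) 1 := Pool.Agent.Helper42.PM.dtzt_mem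
  have hptc : Continuous (fun θ : ℝ => pt (-y) θ) := by unfold pt; fun_prop
  have pot : ∀ f : ℂ → SurfaceGroup g →* SL, HolDisc f →
      Pot (fun z => 1 / ent (f z)) (fun p z => J (U (f p)) (f p) (f z)) := fun f hf =>
    po (SurfaceGroup g) f U hf.1 (fun z hz => qf g hg (f z) (hf.2 z hz))
      (fun z hz => hU (f z) (hf.2 z hz))
  set v : ℝ → ℝ → ℝ := fun θ t => 1 / ent (F (zt t) (pt (-y) θ)) with hv
  have h1 : ∀ θ t, 1 / 2 ≤ v θ t := fun θ t => (pot _ (hF1 (zt t) (hzt t))).1 _ (hpt θ)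
  have h2 : ∀ θ s t, v θ s ≤ Real.exp |s - t| * v θ t := fun θ s t =>
    (ge1 _ _ (pot _ (hF2 _ (hpt θ)))).1 s t
  have h3 : ∀ t, Continuous (fun θ => v θ t) := by
    intro t
    have hc := ra2 _ _ (pot _ (hF1 (zt t) (hzt t)))
    exact hc.comp_continuous hptc hpt
  have hj : Continuous (fun p : ℝ × ℝ => v p.1 p.2) := joint v h2 h3
  have hψ : Continuous (fun p : ℝ × ℝ => Real.sqrt (2 - ent (F (zt p.2) (pt (-y) p.1)))) := by
    have e : (fun p : ℝ × ℝ => Real.sqrt (2 - ent (F (zt p.2) (pt (-y) p.1)))) =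
        fun p : ℝ × ℝ => Real.sqrt (2 - 1 / v p.1 p.2) := by
      funext p
      simp only [hv, one_div, inv_inv]
    rw [e]
    refine Real.continuous_sqrt.comp (continuous_const.sub (continuous_const.div hj ?_))
    intro p
    have := h1 p.1 p.2
    positivity
  exact param (fun θ t => Real.sqrt (2 - ent (F (zt t) (pt (-y) θ)))) hψ L

end Pool.Agent.Helper35.PQFJC
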