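import Pool.Agent.Helper35.PQF.St3
import Pool.Agent.Helper12.PM.M_F3

/-! # Project PQF: mean cost of a random ray (RM) -/

open Filter Topology Matrix Set MeasureTheory
open scoped ENNReal ComplexOrder

namespace Pool.Agent.Helper35.PQFRM

open Pool.Agent.Helper35.PM Pool.Agent.Helper12.PM

theorem exp08 : (2.18 : ℝ) ≤ Real.exp 0.8 := by
  have h : (1.05 : ℝ) ≤ Real.exp 0.05 := by
    have := Real.add_one_le_exp (0.05 : ℝ)
    linarith
  have e : Real.exp 0.8 = Real.exp 0.05 ^ 16 := by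
    rw [← Real.exp_nat_mul]; norm_num
  rw [e]
  calc (2.18 : ℝ) ≤ 1.05 ^ 16 := by norm_num
    _ ≤ Real.exp 0.05 ^ 16 := pow_le_pow_left₀ (by norm_num) h 16

theorem log08 : Real.log ((1 + Real.exp (-1)) / (1 - Real.exp (-1))) ≤ 0.8 := by
  have he : (2.7182818283 : ℝ) < Real.exp 1 := Real.exp_one_gt_d9
  have h1 : Real.exp (-1) < 0.37 := by
    rw [Real.exp_neg]
    rw [inv_lt_comm₀ (by positivity) (by norm_num)]
    refine lt_trans ?_ he
    norm_num
  have h0 : 0 < Real.exp (-1) := Real.exp_pos _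
  rw [Real.log_le_iff_le_exp (div_pos (by linarith) (by linarith))]
  refine le_trans ?_ exp08
  rw [div_le_iff₀ (by linarith)]
  linarith

theorem first (qf : St_QF) (f1 : St_F1) (g : ℕ) (hg : 2 ≤ g)
    (U : (SurfaceGroup g →* SL) → Ultrafilter ℝ) (hU : ∀ ρ, IsQF ρ → Adapted (U ρ) ρ)
    (f : ℂ → SurfaceGroup g →* SL) (hf : HolDisc f) (θ : ℝ) :
    pressureDist U (f 0) (f (pt (-1) θ)) ≤ ENNReal.ofReal (3 / 2) := by
  obtain ⟨L, hL, hL2, hzt⟩ : ∃ L : ℝ, 0 ≤ L ∧ L ≤ 0.8 ∧ zt L = ((Real.exp (-1) : ℝ) : ℂ) := by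
    have h0 : 0 < Real.exp (-1) := Real.exp_pos _
    have h1 : Real.exp (-1) < 1 := exp_lt1 (by norm_num)
    refine ⟨Real.log ((1 + Real.exp (-1)) / (1 - Real.exp (-1))), ?_, log08, ?_⟩
    · refine Real.log_nonneg ?_
      rw [le_div_iff₀ (by linarith)]
      linarith
    · set t := Real.exp (-1) with ht
      unfold zt
      congr 1
      set y := Real.log ((1 + t) / (1 - t)) / 2 with hy
      have hpos : 0 < (1 + t) / (1 - t) := div_pos (by linarith) (by linarith)
      have e1 : Real.exp y * Real.exp y = (1 + t) / (1 - t) := by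
        rw [← Real.exp_add, hy, add_halves, Real.exp_log hpos]
      have e2 : Real.exp (-y) = (Real.exp y)⁻¹ := Real.exp_neg y
      have hE : 0 < Real.exp y := Real.exp_pos y
      rw [Real.tanh_eq_sinh_div_cosh, Real.sinh_eq, Real.cosh_eq, e2, div_div_div_cancel_right₀
        (two_ne_zero)]
      have h3 : (1 - t) * (Real.exp y * Real.exp y) = 1 + t := by
        rw [e1, mul_div_cancel₀ _ (by linarith : (1 - t) ≠ 0)]
      rw [div_eq_iff (by positivity)]
      field_simp
      linarith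
  have hmap : MapsTo (fun z : ℂ => Complex.exp (θ * Complex.I) * z) (Metric.ball (0 : ℂ) 1)
      (Metric.ball (0 : ℂ) 1) := by
    intro z hz
    rw [mem_ball_zero_iff] at hz ⊢
    rw [norm_mul, Complex.norm_exp_ofReal_mul_I, one_mul]
    exact hz
  have hdisc : HolDisc (fun z => f (Complex.exp (θ * Complex.I) * z)) := by
    refine ⟨fun γ i j => ?_, fun z hz => hf.2 _ (hmap hz)⟩
    exact (hf.1 γ i j).comp ((differentiable_id.const_mul _).differentiableOn) hmap
  have hzt' : ∀ t : ℝ, zt t ∈ Metric.ball (0 : ℂ) 1 := by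
    intro t
    rw [mem_ball_zero_iff]
    unfold zt
    rw [Complex.norm_real, Real.norm_eq_abs]
    exact Real.abs_tanh_lt_one _
  have h := (f1 g hg U hU _ hdisc L 2 hL (fun t _ => by
    have := (qf g hg _ (hdisc.2 (zt t) (hzt' t))).2.1
    linarith)).2
  simp only [mul_zero] at h
  rw [hzt] at h
  have e : Complex.exp (θ * Complex.I) * ((Real.exp (-1) : ℝ) : ℂ) = pt (-1) θ := by
    unfold pt
    rw [Complex.ofReal_exp, ← Complex.exp_add, add_comm]
  rw [e] at h
  refine h.trans (ENNReal.ofReal_le_ofReal ?_)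
  rw [Real.sqrt_le_left (by norm_num)]
  nlinarith

/-- Cauchy-Schwarz. -/
theorem half_int (μ : Measure ℝ) (E : ℝ → ℝ≥0∞) (hE : Measurable E) :
    ∫⁻ θ, (E θ) ^ (1 / 2 : ℝ) ∂μ ≤ (∫⁻ θ, E θ ∂μ) ^ (1 / 2 : ℝ) * (μ Set.univ) ^ (1 / 2 : ℝ) := by
  have hpq : (2 : ℝ).HolderConjugate 2 := Real.HolderConjugate.two_two
  have h := ENNReal.lintegral_mul_le_Lp_mul_Lq μ hpq
    (f := fun θ => (E θ) ^ (1 / 2 : ℝ)) (g := fun _ => 1)
    (hE.pow_const _).aemeasurable measurable_const.aemeasurable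
  simp only [Pi.mul_apply, mul_one, ENNReal.one_rpow, lintegral_const, one_mul] at h
  refine h.trans (le_of_eq ?_)
  congr 2
  refine lintegral_congr fun θ => ?_
  rw [← ENNReal.rpow_mul]
  norm_num

theorem mdef_eq (qf : St_QF) (po : St_PO) (ra2 : St_RA2) (g : ℕ) (hg : 2 ≤ g)
    (U : (SurfaceGroup g →* SL) → Ultrafilter ℝ) (hU : ∀ ρ, IsQF ρ → Adapted (U ρ) ρ)
    (f : ℂ → SurfaceGroup g →* SL) (hf : HolDisc f) (y : ℝ) (hy : 0 < y) :
    0 ≤ mdef f y ∧ ∫⁻ θ in Ioo 0 (2 * Real.pi),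
      ENNReal.ofReal ((2 - ent (f (pt (-y) θ))) / ent (f (pt (-y) θ))) =
        ENNReal.ofReal (2 * Real.pi * mdef f y) := by
  have hfacts : ∀ z ∈ Metric.ball (0 : ℂ) 1, Facts (f z) := fun z hz => qf g hg _ (hf.2 z hz)
  have hcont : ContinuousOn (fun z => 1 / ent (f z)) (Metric.ball 0 1) :=
    ra2 _ _ (po _ f U hf.1 hfacts (fun z hz => hU _ (hf.2 z hz)))
  have hpt : ∀ θ : ℝ, pt (-y) θ ∈ Metric.ball (0 : ℂ) 1 := fun θ => pt_mem (by linarith) θ
  have hptc : Continuous (fun θ : ℝ => pt (-y) θ) := by unfold pt; fun_prop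
  have hc : Continuous (fun θ : ℝ => 1 / ent (f (pt (-y) θ))) := hcont.comp_continuous hptc hpt
  have hc2 : Continuous (fun θ : ℝ => (2 - ent (f (pt (-y) θ))) / ent (f (pt (-y) θ))) := by
    have e : (fun θ : ℝ => (2 - ent (f (pt (-y) θ))) / ent (f (pt (-y) θ))) =
        fun θ : ℝ => 2 * (1 / ent (f (pt (-y) θ))) - 1 := by
      funext θ
      have h := (hfacts _ (hpt θ)).2.1
      field_simp
    rw [e]
    exact (continuous_const.mul hc).sub continuous_const
  have hnn : ∀ θ : ℝ, 0 ≤ (2 - ent (f (pt (-y) θ))) / ent (f (pt (-y) θ)) := fun θ =>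
    div_nonneg (by linarith [(hfacts _ (hpt θ)).2.2.1]) (hfacts _ (hpt θ)).2.1.le
  have hpi : 0 ≤ 2 * Real.pi := by positivity
  have hI : ∫ θ in (0 : ℝ)..(2 * Real.pi), ((2 - ent (f (pt (-y) θ))) / ent (f (pt (-y) θ))) =
      ∫ θ in Ioo 0 (2 * Real.pi), ((2 - ent (f (pt (-y) θ))) / ent (f (pt (-y) θ))) := by
    rw [intervalIntegral.integral_of_le hpi, integral_Ioc_eq_integral_Ioo]
  have hm : 2 * Real.pi * mdef f y =
      ∫ θ in Ioo 0 (2 * Real.pi), ((2 - ent (f (pt (-y) θ))) / ent (f (pt (-y) θ))) := by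
    unfold mdef
    rw [hI, ← mul_assoc, mul_inv_cancel₀ (by positivity), one_mul]
  constructor
  · unfold mdef
    refine mul_nonneg (by positivity) ?_
    exact intervalIntegral.integral_nonneg hpi fun θ _ => hnn θ
  · rw [hm]
    rw [ofReal_integral_eq_lintegral_ofReal]
    · exact (hc2.integrableOn_Icc (a := 0) (b := 2 * Real.pi)).mono_set Ioo_subset_Icc_self
    · exact Eventually.of_forall fun θ => hnn θ

theorem rm (qf : St_QF) (po : St_PO) (ra2 : St_RA2) (f1 : St_F1) (sy : St_SY) : St_RM := by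
  intro g hg U hU f hf ⟨E, hEm, hEi, hEd⟩ n y hy0 hya hyp
  refine ⟨fun θ => ENNReal.ofReal (3 / 2) + ∑ k ∈ Finset.range n,
    (E (y k) θ) ^ (1 / 2 : ℝ) * ENNReal.ofReal (Real.sqrt (Real.log (y k / y (k + 1)))),
    ?_, ?_, ?_⟩
  · have hs : Measurable (fun θ : ℝ => ∑ k ∈ Finset.range n,
        (E (y k) θ) ^ (1 / 2 : ℝ) * ENNReal.ofReal (Real.sqrt (Real.log (y k / y (k + 1))))) :=
      Finset.measurable_sum _ fun k _ => ((hEm (y k) (hyp k)).pow_const _).mul_const _
    exact measurable_const.add hs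
  · intro θ
    beta_reduce
    induction n with
    | zero =>
      rw [Finset.sum_range_zero, add_zero, hy0]
      exact first qf f1 g hg U hU f hf θ
    | succ n ih =>
      rw [Finset.sum_range_succ, ← add_assoc]
      refine ((sy _ U).2 _ (f (pt (-(y n)) θ)) _).trans (add_le_add ih ?_)
      exact hEd θ (y (n + 1)) (y n) (hyp _) (hya (Nat.le_succ n))
  · have hpi : 0 < 2 * Real.pi := by positivity
    rw [lintegral_add_left measurable_const, lintegral_finsetSum' _ fun k _ =>
      (((hEm (y k) (hyp k)).pow_const _).mul_const _).aemeasurable]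
    have hvol : (volume.restrict (Ioo 0 (2 * Real.pi))) Set.univ =
        ENNReal.ofReal (2 * Real.pi) := by
      rw [Measure.restrict_apply_univ, Real.volume_Ioo, sub_zero]
    have hk : ∀ k ∈ Finset.range n, ∫⁻ θ in Ioo 0 (2 * Real.pi),
        (E (y k) θ) ^ (1 / 2 : ℝ) * ENNReal.ofReal (Real.sqrt (Real.log (y k / y (k + 1)))) ≤
        ENNReal.ofReal (2 * Real.pi *
          (Real.sqrt (mdef f (y k)) * Real.sqrt (Real.log (y k / y (k + 1))))) := by
      intro k _
      obtain ⟨m0, m1⟩ := mdef_eq qf po ra2 g hg U hU f hf (y k) (hyp k)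
      rw [lintegral_mul_const _ ((hEm (y k) (hyp k)).pow_const _)]
      have h1 : ∫⁻ θ in Ioo 0 (2 * Real.pi), (E (y k) θ) ^ (1 / 2 : ℝ) ≤
          ENNReal.ofReal (2 * Real.pi * Real.sqrt (mdef f (y k))) := by
        refine (half_int _ _ (hEm (y k) (hyp k))).trans ?_
        rw [hvol]
        have h2 := (hEi (y k) (hyp k)).trans (le_of_eq m1)
        calc (∫⁻ θ in Ioo 0 (2 * Real.pi), E (y k) θ) ^ (1 / 2 : ℝ) *
              (ENNReal.ofReal (2 * Real.pi)) ^ (1 / 2 : ℝ)
            ≤ (ENNReal.ofReal (2 * Real.pi * mdef f (y k))) ^ (1 / 2 : ℝ) *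
              (ENNReal.ofReal (2 * Real.pi)) ^ (1 / 2 : ℝ) := by
              gcongr
          _ = ENNReal.ofReal (2 * Real.pi * Real.sqrt (mdef f (y k))) := by
              rw [ENNReal.ofReal_rpow_of_nonneg (by positivity) (by norm_num),
                ENNReal.ofReal_rpow_of_nonneg hpi.le (by norm_num), ← ENNReal.ofReal_mul (by positivity),
                ← Real.sqrt_eq_rpow, ← Real.sqrt_eq_rpow, Real.sqrt_mul hpi.le]
              congr 1
              have := Real.mul_self_sqrt hpi.le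
              calc Real.sqrt (2 * Real.pi) * Real.sqrt (mdef f (y k)) * Real.sqrt (2 * Real.pi)
                  = (Real.sqrt (2 * Real.pi) * Real.sqrt (2 * Real.pi)) *
                    Real.sqrt (mdef f (y k)) := by ring
                _ = 2 * Real.pi * Real.sqrt (mdef f (y k)) := by rw [this]
      calc _ ≤ ENNReal.ofReal (2 * Real.pi * Real.sqrt (mdef f (y k))) *
            ENNReal.ofReal (Real.sqrt (Real.log (y k / y (k + 1)))) := by
              gcongr
        _ = _ := by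
              rw [← ENNReal.ofReal_mul (by positivity)]
              congr 1; ring
    calc _ ≤ ENNReal.ofReal (2 * Real.pi * (3 / 2)) + ∑ k ∈ Finset.range n,
          ENNReal.ofReal (2 * Real.pi *
            (Real.sqrt (mdef f (y k)) * Real.sqrt (Real.log (y k / y (k + 1))))) := by
          refine add_le_add (le_of_eq ?_) (Finset.sum_le_sum hk)
          rw [lintegral_const, hvol, ← ENNReal.ofReal_mul (by norm_num)]
          congr 1; ring
      _ = _ := by
          rw [← ENNReal.ofReal_sum_of_nonneg (fun k _ => by positivity),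
            ← ENNReal.ofReal_add (by positivity)
              (Finset.sum_nonneg fun k _ => by positivity)]
          congr 1
          rw [mul_add, Finset.mul_sum]

end Pool.Agent.Helper35.PQFRM
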