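import Pool.Agent.Helper35.PQF.All2
import Pool.Agent.Helper35.PQF.M_JC
import Pool.Agent.Helper35.PQF.M_RM
import Pool.Agent.Helper13.PM.M_SY
import Pool.Agent.Helper42.PM.M_DT
import Pool.Agent.Helper47.PM.M_DC

/-! # Project PQF: assembly of the detour inequality -/

namespace Pool.Agent.Helper35.PM

theorem ry_ : St_RY := fun g hg U hU f hf => by
  obtain ⟨E, h1, h2, h3, -⟩ := rays cs_ f2_ f3_ g hg U hU f hf
  exact ⟨E, h1, h2, h3⟩

theorem sy_ : St_SY := Pool.Agent.Helper13.PM.sy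
theorem rm_ : St_RM := Pool.Agent.Helper35.PQFRM.rm qf_ po_ ra2_ f1_ sy_
theorem jc_ : St_JC := Pool.Agent.Helper35.PQFJC.jc qf_ po_ ge1_ ra2_
theorem dt_ : St_DT := Pool.Agent.Helper42.PM.dt f4_ sy_ rm_ jc_ ry_
theorem dc_ : St_DC := Pool.Agent.Helper47.PM.dc dt_

end Pool.Agent.Helper35.PM
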