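import Pool.Agent.Helper35.PQF.All
import Pool.Agent.Helper64.PM.M_GE3
import Pool.Agent.Helper39.PM.M_F4

/-! # Project PQF: assembly of the weighted version -/

namespace Pool.Agent.Helper35.PM

theorem ge3_ : St_GE3 := Pool.Agent.Helper64.PM.ge3
theorem f4_ : St_F4 := Pool.Agent.Helper39.PM.f4 qf_ po_ ge1_ ge2_ ge3_ cs_ f1_

end Pool.Agent.Helper35.PM
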