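import Pool.Agent.Helper35.PQF.St

/-! # Project PM: consistency of the definitions with the classical ones -/

open Filter Topology Matrix Set MeasureTheory
open scoped ENNReal ComplexOrder

namespace Pool.Agent.Helper35.PM

variable {Γ : Type} [Group Γ]

/-- If the limit defining the entropy exists, every ultrafilter at infinity is adapted. -/
theorem adapted_of_tendsto (ρ : Γ →* SL) (V : Ultrafilter ℝ) (hV : (V : Filter ℝ) ≤ atTop)
    (h : Tendsto (fun T : ℝ => Real.log (num ρ T) / T) atTop (𝓝 (ent ρ))) : Adapted V ρ :=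
  ⟨hV, h.mono_left hV⟩

/-- If the limit defining the intersection exists, `inter` is that limit. -/
theorem inter_eq_of_tendsto (ρ σ : Γ →* SL) (V : Ultrafilter ℝ) (hV : (V : Filter ℝ) ≤ atTop)
    (I : ℝ) (h : Tendsto (avg ρ σ) atTop (𝓝 I)) : inter V ρ σ = I :=
  (h.mono_left hV).limUnder_eq

/-- The symmetric second difference quotient of a `C²` function tends to the second derivative. -/
theorem symm_second (G : ℝ → ℝ) (t : ℝ) (hG : ContDiffAt ℝ 2 G t) :
    Tendsto (fun δ : ℝ => (G (t + δ) + G (t - δ) - 2 * G t) / δ ^ 2) (𝓝[>] 0)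
      (𝓝 (iteratedDeriv 2 G t)) := by
  obtain ⟨s, hs, hsG⟩ := hG.contDiffOn (m := 2) le_rfl (by simp)
  have hs' : s ∈ 𝓝 t := by simpa using hs
  obtain ⟨r, hr, hrs⟩ := Metric.mem_nhds_iff.1 hs'
  have hGb : ContDiffOn ℝ ((2 : ℕ) : WithTop ℕ∞) G (Metric.ball t r) := by
    have := hsG.mono hrs
    simpa using this
  have htay := Real.taylor_tendsto (n := 2) (convex_ball t r) (Metric.mem_ball_self hr) hGb
  have hnhds : 𝓝[Metric.ball t r] t = 𝓝 t :=
    (Metric.isOpen_ball.nhdsWithin_eq (Metric.mem_ball_self hr))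
  rw [hnhds] at htay
  have hD1 : ∀ x, taylorWithinEval G 2 (Metric.ball t r) t x =
      G t + (x - t) * iteratedDeriv 1 G t + (x - t) ^ 2 / 2 * iteratedDeriv 2 G t := by
    intro x
    rw [taylor_within_apply]
    simp only [Finset.sum_range_succ, Finset.sum_range_zero]
    rw [iteratedDerivWithin_of_isOpen Metric.isOpen_ball (Metric.mem_ball_self hr),
      iteratedDerivWithin_of_isOpen Metric.isOpen_ball (Metric.mem_ball_self hr),
      iteratedDerivWithin_of_isOpen Metric.isOpen_ball (Metric.mem_ball_self hr)]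
    have e2 : ((Nat.factorial 2 : ℕ) : ℝ) = 2 := by norm_num [Nat.factorial]
    rw [e2]
    simp
    ring_nf
    try simp
  simp only [hD1] at htay
  have h1 : Tendsto (fun δ : ℝ => t + δ) (𝓝[>] 0) (𝓝 t) := by
    have : Tendsto (fun δ : ℝ => t + δ) (𝓝 0) (𝓝 (t + 0)) := by
      apply Continuous.tendsto; fun_prop
    simpa using this.mono_left nhdsWithin_le_nhds
  have h2 : Tendsto (fun δ : ℝ => t - δ) (𝓝[>] 0) (𝓝 t) := by
    have : Tendsto (fun δ : ℝ => t - δ) (𝓝 0) (𝓝 (t - 0)) := by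
      apply Continuous.tendsto; fun_prop
    simpa using this.mono_left nhdsWithin_le_nhds
  have h3 := (htay.comp h1).add (htay.comp h2)
  have h4 := h3.add_const (iteratedDeriv 2 G t)
  simp only [add_zero, zero_add] at h4
  refine h4.congr' ?_
  filter_upwards [self_mem_nhdsWithin] with δ hδ
  have hδ' : (δ : ℝ) ≠ 0 := ne_of_gt hδ
  simp only [Function.comp]
  have e1 : t + δ - t = δ := by ring
  have e2 : t - δ - t = -δ := by ring
  rw [e1, e2]
  field_simp
  ring

/-- If `s ↦ J(c(t), c(s))` is `C²` at `t` and `J(c(t),c(t)) = 1`, then the squared speed is its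
second derivative at `t`. -/
theorem speedSq_eq (U : (Γ →* SL) → Ultrafilter ℝ) (c : ℝ → Γ →* SL) (t : ℝ)
    (h1 : J (U (c t)) (c t) (c t) = 1)
    (h2 : ContDiffAt ℝ 2 (fun s => J (U (c t)) (c t) (c s)) t) :
    speedSq U c t =
      ENNReal.ofReal (iteratedDeriv 2 (fun s => J (U (c t)) (c t) (c s)) t) := by
  have h := symm_second _ t h2
  have h' : Tendsto (fun δ : ℝ => ENNReal.ofReal
      ((J (U (c t)) (c t) (c (t + δ)) + J (U (c t)) (c t) (c (t - δ)) - 2) / δ ^ 2)) (𝓝[>] 0)
      (𝓝 (ENNReal.ofReal (iteratedDeriv 2 (fun s => J (U (c t)) (c t) (c s)) t))) := by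
    refine (ENNReal.continuous_ofReal.tendsto _).comp (h.congr ?_)
    intro δ
    simp [h1]
  exact h'.liminf_eq

/-- `J(ρ,ρ) = 1` (from the frame applied to a constant disc). -/
theorem J_self (hpo : St_PO) (hqf : St_QF) (g : ℕ) (hg : 2 ≤ g)
    (U : (SurfaceGroup g →* SL) → Ultrafilter ℝ) (hU : ∀ ρ, IsQF ρ → Adapted (U ρ) ρ)
    (ρ : SurfaceGroup g →* SL) (hρ : IsQF ρ) : J (U ρ) ρ ρ = 1 := by
  have hP := hpo (SurfaceGroup g) (fun _ => ρ) U (fun γ i j => differentiableOn_const _)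
    (fun z _ => hqf g hg ρ hρ) (fun z _ => hU ρ hρ)
  obtain ⟨G, -, hG, hG0⟩ := hP.2 0 (Metric.mem_ball_self one_pos)
  have h0 := (hG 0 (Metric.mem_ball_self one_pos)).1
  have hpos := (hqf g hg ρ hρ).2.1
  rw [hG0] at h0
  have : (0 : ℝ) < 1 / ent ρ := by positivity
  have h1 : (1 - J (U ρ) ρ ρ) * (1 / ent ρ) = 0 := by linarith
  rcases mul_eq_zero.1 h1 with h | h
  · linarith
  · exact absurd h this.ne'

end Pool.Agent.Helper35.PM
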