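import Mathlib

/-!
# Project PM (MP_d112a4_gt): pressure length in quasifuchsian space.  Definitions.

Surface group representations are representations into `SL(2,ℂ)` (lifts of representations
into `PSL(2,ℂ)`); hyperbolic space `ℍ³` is the set of positive definite Hermitian `2 × 2`
matrices up to positive scalars (`A` acts by `P ↦ A P A*`); normalised by trace one it is the
open ball (Klein model, geodesics are affine segments), the boundary sphere being the set of
rank one positive semidefinite matrices of trace one.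
-/

open Filter Topology Matrix Set
open scoped ENNReal ComplexOrder

namespace Pool.Agent.Helper35.PM

/-- The relator `[a₁,b₁]⋯[a_g,b_g]`. -/
def relator (g : ℕ) : FreeGroup (Fin g × Bool) :=
  (List.ofFn fun i : Fin g =>
    FreeGroup.of ((i, false) : Fin g × Bool) * FreeGroup.of (i, true) *
      (FreeGroup.of (i, false))⁻¹ * (FreeGroup.of (i, true))⁻¹).prod

/-- The fundamental group of the closed orientable surface of genus `g`. -/
abbrev SurfaceGroup (g : ℕ) : Type := PresentedGroup ({relator g} : Set (FreeGroup (Fin g × Bool)))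

/-- `2 × 2` complex matrices. -/
abbrev Mat : Type := Matrix (Fin 2) (Fin 2) ℂ

/-- `SL(2,ℂ)`. -/
abbrev SL : Type := Matrix.SpecialLinearGroup (Fin 2) ℂ

/-- Squared Hilbert-Schmidt norm; for `A` in `SL(2,ℂ)` it is `2 cosh d(o, A o)` where `o` is
the base point of `ℍ³` (the identity matrix). -/
noncomputable def hs (A : Mat) : ℝ := ∑ i, ∑ j, ‖A i j‖ ^ 2

/-- Translation length in `ℍ³`: twice the logarithm of the largest modulus of an eigenvalue
(the eigenvalues are the roots of `μ² - tr(A) μ + 1`). -/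
noncomputable def tl (A : SL) : ℝ :=
  2 * sSup ((fun μ : ℂ => Real.log ‖μ‖) '' {μ : ℂ | μ ^ 2 - (A : Mat).trace * μ + 1 = 0})

/-- Normalisation of a Hermitian matrix by its trace. -/
noncomputable def density (P : Mat) : Mat := (P.trace)⁻¹ • P

variable {Γ : Type} [Group Γ]

/-- Limit set: accumulation points (in the closed ball of trace one matrices) of the orbit of
the base point of `ℍ³`. -/
def limitSet (ρ : Γ →* SL) : Set Mat :=
  {Q | MapClusterPt Q cofinite (fun γ : Γ => density ((ρ γ : Mat) * (ρ γ : Mat)ᴴ))}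

/-- Convex cocompactness: a nonempty invariant convex subset `C` of `ℍ³` (Klein model) and a
compact subset `K` of `ℍ³` such that every point of `C` can be moved into `K`. -/
def ConvexCocompact (ρ : Γ →* SL) : Prop :=
  ∃ C K : Set Mat, C.Nonempty ∧ Convex ℝ C ∧ (∀ P ∈ C, P.PosDef ∧ P.trace = 1) ∧
    (∀ γ, ∀ P ∈ C, density ((ρ γ : Mat) * P * (ρ γ : Mat)ᴴ) ∈ C) ∧
    IsCompact K ∧ (∀ P ∈ K, P.PosDef ∧ P.trace = 1) ∧
    ∀ P ∈ C, ∃ γ, density ((ρ γ : Mat) * P * (ρ γ : Mat)ᴴ) ∈ K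

/-- Discreteness (with finite kernel): finitely many elements in every compact set. -/
def IsDiscrete (ρ : Γ →* SL) : Prop := ∀ X : ℝ, {γ : Γ | hs (ρ γ) ≤ X}.Finite

/-- Quasifuchsian representations: faithful modulo `±1`, discrete, the limit set is a Jordan
curve, convex cocompact. -/
structure IsQF (ρ : Γ →* SL) : Prop where
  faithful : ∀ γ, ((ρ γ : Mat) = 1 ∨ (ρ γ : Mat) = -1) → γ = 1
  discrete : IsDiscrete ρ
  jordan : Nonempty (limitSet ρ ≃ₜ Circle)
  cocompact : ConvexCocompact ρ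

/-- Fuchsian: conjugate into `SL(2,ℝ)`. -/
def IsFuchsian (ρ : Γ →* SL) : Prop :=
  ∃ B : SL, ∀ γ, ∀ i j, ((B * ρ γ * B⁻¹ : SL) : Mat) i j ∈ Set.range ((↑) : ℝ → ℂ)

/-- Length of a conjugacy class. -/
noncomputable def len (ρ : Γ →* SL) (c : ConjClasses Γ) : ℝ := tl (ρ (Quotient.out c))

/-- `R_T(ρ)`: conjugacy classes of length at most `T`. -/
def classes (ρ : Γ →* SL) (T : ℝ) : Set (ConjClasses Γ) := {c | len ρ c ≤ T}

/-- Number of conjugacy classes of length at most `T`. -/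
noncomputable def num (ρ : Γ →* SL) (T : ℝ) : ℕ := (classes ρ T).ncard

/-- Entropy. -/
noncomputable def ent (ρ : Γ →* SL) : ℝ :=
  limsup (fun T : ℝ => Real.log (num ρ T) / T) atTop

/-- Average of `ℓ_σ/ℓ_ρ` over `R_T(ρ)`. -/
noncomputable def avg (ρ σ : Γ →* SL) (T : ℝ) : ℝ :=
  (∑ᶠ c ∈ classes ρ T, len σ c / len ρ c) / (num ρ T : ℝ)

/-- An ultrafilter at infinity along which the entropy of `ρ` is attained.  (If the limit
defining the entropy exists, every ultrafilter finer than `atTop` is adapted.) -/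
def Adapted (U : Ultrafilter ℝ) (ρ : Γ →* SL) : Prop :=
  (U : Filter ℝ) ≤ atTop ∧
    Tendsto (fun T : ℝ => Real.log (num ρ T) / T) (U : Filter ℝ) (𝓝 (ent ρ))

/-- Intersection (limit along `U`; equal to the limit as `T → ∞` whenever that limit exists). -/
noncomputable def inter (U : Ultrafilter ℝ) (ρ σ : Γ →* SL) : ℝ :=
  limUnder (U : Filter ℝ) (avg ρ σ)

/-- Renormalised intersection. -/
noncomputable def J (U : Ultrafilter ℝ) (ρ σ : Γ →* SL) : ℝ :=
  ent σ / ent ρ * inter U ρ σ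

/-- Squared pressure speed of a path at time `t`: the (lower) symmetric second derivative of
`s ↦ J(c(t), c(s))` at `s = t` (recall `J(ρ,ρ) = 1`); if `s ↦ J(c(t), c(s))` is twice
differentiable at `t` this is the second derivative, that is the pressure form. -/
noncomputable def speedSq (U : (Γ →* SL) → Ultrafilter ℝ) (c : ℝ → Γ →* SL) (t : ℝ) : ℝ≥0∞ :=
  liminf (fun δ : ℝ => ENNReal.ofReal
    ((J (U (c t)) (c t) (c (t + δ)) + J (U (c t)) (c t) (c (t - δ)) - 2) / δ ^ 2)) (𝓝[>] 0)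

/-- The pressure length of `c` on `[a,b]` is at most `B`. -/
def LengthLE (U : (Γ →* SL) → Ultrafilter ℝ) (c : ℝ → Γ →* SL) (a b : ℝ) (B : ℝ≥0∞) : Prop :=
  ∃ q : ℝ → ℝ≥0∞, Measurable q ∧ (∀ t ∈ Ioo a b, speedSq U c t ≤ q t ^ 2) ∧
    ∫⁻ t in Ioo a b, q t ≤ B

/-- A smooth path of quasifuchsian representations on `[a,b]`. -/
def SmoothPath (c : ℝ → Γ →* SL) (a b : ℝ) : Prop :=
  (∀ γ i j, ContDiffOn ℝ ((⊤ : ℕ∞) : WithTop ℕ∞) (fun t : ℝ => (c t γ : Mat) i j) (Icc a b)) ∧
    ∀ t ∈ Icc a b, IsQF (c t)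

/-- `PressureLE U ρ σ B`: the classes of `ρ` and `σ` in quasifuchsian space (representations
into `PSL(2,ℂ)` up to conjugacy, hence the sign) are joined by a piecewise smooth path of
pressure length at most `B`. -/
inductive PressureLE (U : (Γ →* SL) → Ultrafilter ℝ) : (Γ →* SL) → (Γ →* SL) → ℝ≥0∞ → Prop
  | conj (ρ σ : Γ →* SL) (B : SL)
      (h : ∀ γ, (σ γ : Mat) = ((B * ρ γ * B⁻¹ : SL) : Mat) ∨
        (σ γ : Mat) = -((B * ρ γ * B⁻¹ : SL) : Mat)) : PressureLE U ρ σ 0
  | path (c : ℝ → Γ →* SL) (a b : ℝ) (B : ℝ≥0∞) (hab : a ≤ b) (hc : SmoothPath c a b)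
      (hB : LengthLE U c a b B) : PressureLE U (c a) (c b) B
  | trans (ρ σ τ : Γ →* SL) (B B' : ℝ≥0∞) (h : PressureLE U ρ σ B) (h' : PressureLE U σ τ B') :
      PressureLE U ρ τ (B + B')

/-- Pressure distance. -/
noncomputable def pressureDist (U : (Γ →* SL) → Ultrafilter ℝ) (ρ σ : Γ →* SL) : ℝ≥0∞ :=
  sInf {B | PressureLE U ρ σ B}

/-- Displacement of the point `Q` of `ℍ³` by `A`: this is `2 cosh d(Q, A Q)`. -/
noncomputable def disp (A Q : Mat) : ℝ := ((Q⁻¹ * A * Q * Aᴴ).trace).re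

/-- The point of the unit disc at signed hyperbolic distance `t` from `0` on the real diameter. -/
noncomputable def zt (t : ℝ) : ℂ := ((Real.tanh (t / 2) : ℝ) : ℂ)

/-- The point `e^{x + iθ}`. -/
noncomputable def pt (x θ : ℝ) : ℂ := Complex.exp (x + θ * Complex.I)

/-- Abstract frame: `u` is bounded below by `1/2` on the unit disc and for every `p` in the disc
the function `z ↦ j p z * u z` is harmonic (real part of a holomorphic function), at least
`u z`, and equal to `u p` at `p`. -/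
def Pot (u : ℂ → ℝ) (j : ℂ → ℂ → ℝ) : Prop :=
  (∀ z ∈ Metric.ball (0 : ℂ) 1, 1 / 2 ≤ u z) ∧
    ∀ p ∈ Metric.ball (0 : ℂ) 1, ∃ G : ℂ → ℂ, DifferentiableOn ℂ G (Metric.ball 0 1) ∧
      (∀ z ∈ Metric.ball (0 : ℂ) 1, (G z).re = j p z * u z ∧ u z ≤ (G z).re) ∧
      (G p).re = u p

/-- A holomorphic disc in quasifuchsian space. -/
def HolDisc (f : ℂ → Γ →* SL) : Prop :=
  (∀ γ i j, DifferentiableOn ℂ (fun z : ℂ => (f z γ : Mat) i j) (Metric.ball 0 1)) ∧
    ∀ z ∈ Metric.ball (0 : ℂ) 1, IsQF (f z)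

end Pool.Agent.Helper35.PM
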