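import Pool.Agent.Helper12.PM.M_F3
import Pool.Agent.Helper35.PQF.Cons

/-! # Project PQF: distances along rays in terms of the energy -/

open Filter Topology Matrix Set MeasureTheory
open scoped ENNReal ComplexOrder

namespace Pool.Agent.Helper35.PM

open Pool.Agent.Helper12.PM

theorem int_inv' {x₀ x : ℝ} (h2 : x₀ < x) (h3 : x < 0) :
    ∫⁻ s in Ioo x₀ x, (ENNReal.ofReal (-s))⁻¹ = ENNReal.ofReal (Real.log ((-x₀) / (-x))) := by
  have e1 : ∫⁻ s in Ioo x₀ x, (ENNReal.ofReal (-s))⁻¹ =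
      ∫⁻ s in Ioo x₀ x, ENNReal.ofReal ((-s)⁻¹) := by
    refine setLIntegral_congr_fun measurableSet_Ioo fun s hs => ?_
    have : 0 < -s := by linarith [hs.2]
    rw [ENNReal.ofReal_inv_of_pos this]
  have hint : IntervalIntegrable (fun s : ℝ => (-s)⁻¹) volume x₀ x := by
    refine ContinuousOn.intervalIntegrable ?_
    refine ContinuousOn.inv₀ continuous_neg.continuousOn fun s hs => ?_
    rw [uIcc_of_le h2.le] at hs
    have : s < 0 := lt_of_le_of_lt hs.2 h3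
    linarith [this]
  have hint' : IntegrableOn (fun s : ℝ => (-s)⁻¹) (Ioo x₀ x) :=
    ((intervalIntegrable_iff_integrableOn_Ioo_of_le h2.le).1 hint)
  rw [e1, ← ofReal_integral_eq_lintegral_ofReal hint']
  · congr 1
    rw [← integral_Ioc_eq_integral_Ioo, ← intervalIntegral.integral_of_le h2.le]
    rw [intervalIntegral.integral_comp_neg (fun s => s⁻¹)]
    exact integral_inv_of_pos (by linarith) (by linarith)
  · refine (ae_restrict_iff' measurableSet_Ioo).2 (Eventually.of_forall fun s hs => ?_)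
    have : 0 < -s := by linarith [hs.2]
    positivity

theorem smooth_ray {g : ℕ} (f : ℂ → SurfaceGroup g →* SL) (hf : HolDisc f) (θ x₀ x : ℝ)
    (hx : x < 0) : SmoothPath (fun s => f (pt s θ)) x₀ x := by
  refine ⟨fun γ i j => ?_, fun t ht => hf.2 _ (pt_mem (lt_of_le_of_lt ht.2 hx) θ)⟩
  have h1 : ContDiffOn ℂ ((⊤ : ℕ∞) : WithTop ℕ∞) (fun z : ℂ => (f z γ : Mat) i j)
      (Metric.ball 0 1) := (hf.1 γ i j).contDiffOn Metric.isOpen_ball
  have h2 := h1.restrict_scalars ℝ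
  have h3 : ContDiff ℝ ((⊤ : ℕ∞) : WithTop ℕ∞) (fun s : ℝ => pt s θ) := by
    unfold pt
    have : ContDiff ℝ ((⊤ : ℕ∞) : WithTop ℕ∞) (fun s : ℝ => (s : ℂ) + θ * Complex.I) :=
      Complex.ofRealCLM.contDiff.add contDiff_const
    exact (Complex.contDiff_exp (𝕜 := ℝ)).comp this
  exact h2.comp h3.contDiffOn fun t ht => pt_mem (lt_of_le_of_lt ht.2 hx) θ

/-- Second theorem. -/
theorem rays (cs : St_CS) (f2 : St_F2) (f3 : St_F3) (g : ℕ) (hg : 2 ≤ g)
    (U : (SurfaceGroup g →* SL) → Ultrafilter ℝ) (hU : ∀ ρ, IsQF ρ → Adapted (U ρ) ρ)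
    (f : ℂ → SurfaceGroup g →* SL) (hf : HolDisc f) :
    ∃ E : ℝ → ℝ → ℝ≥0∞, (∀ y, 0 < y → Measurable (E y)) ∧
      (∀ y, 0 < y → ∫⁻ θ in Ioo 0 (2 * Real.pi), E y θ ≤ ∫⁻ θ in Ioo 0 (2 * Real.pi),
        ENNReal.ofReal ((2 - ent (f (pt (-y) θ))) / ent (f (pt (-y) θ)))) ∧
      (∀ θ y₁ y₂ : ℝ, 0 < y₁ → y₁ ≤ y₂ →
        pressureDist U (f (pt (-y₂) θ)) (f (pt (-y₁) θ)) ≤
          (E y₂ θ) ^ (1 / 2 : ℝ) * ENNReal.ofReal (Real.sqrt (Real.log (y₂ / y₁)))) ∧
      ∀ᵐ θ : ℝ ∂(volume.restrict (Ioo 0 (2 * Real.pi))),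
        Tendsto (fun y : ℝ => pressureDist U (f 0) (f (pt (-y) θ)) /
          ENNReal.ofReal (Real.sqrt (Real.log (1 / y)))) (𝓝[>] 0) (𝓝 0) := by
  obtain ⟨q, hqm, hq, hint⟩ := f2 g hg U hU f hf
  have hmeas : Measurable (Function.uncurry fun θ x : ℝ => ENNReal.ofReal (-x) * q θ x) := by
    refine Measurable.mul ?_ hqm
    exact ENNReal.measurable_ofReal.comp measurable_snd.neg
  refine ⟨fun y θ => ∫⁻ x in Ioo (-y) 0, ENNReal.ofReal (-x) * q θ x, fun y hy => ?_, hint, ?_, ?_⟩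
  · exact Measurable.lintegral_prod_right' (ν := volume.restrict (Ioo (-y) 0)) hmeas
  · intro θ y₁ y₂ h1 h2
    rcases h2.eq_or_lt with rfl | h2
    · have h0 : PressureLE U (f (pt (-y₁) θ)) (f (pt (-y₁) θ)) 0 :=
        PressureLE.conj _ _ 1 (fun γ => Or.inl (by simp))
      exact (sInf_le h0).trans (zero_le)
    obtain ⟨q₁, hq1m, hq1, hq1i⟩ := cs (q θ) (fun s => ENNReal.ofReal (-s)) (-y₂) (-y₁)
      (hqm.comp measurable_prodMk_left)
      (ENNReal.measurable_ofReal.comp measurable_neg)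
      (fun t ht => ⟨(ENNReal.ofReal_pos.2 (by linarith [ht.2])).ne', ENNReal.ofReal_ne_top⟩)
    have hle : ∫⁻ t in Ioo (-y₂) (-y₁), q₁ t ≤
        (∫⁻ x in Ioo (-y₂) 0, ENNReal.ofReal (-x) * q θ x) ^ (1 / 2 : ℝ) *
          ENNReal.ofReal (Real.sqrt (Real.log (y₂ / y₁))) := by
      refine hq1i.trans (mul_le_mul' ?_ ?_)
      · exact ENNReal.rpow_le_rpow
          (lintegral_mono_set (Ioo_subset_Ioo_right (by linarith))) (by norm_num)
      · rw [int_inv' (by linarith : -y₂ < -y₁) (by linarith), neg_neg, neg_neg,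
          ENNReal.ofReal_rpow_of_nonneg _ (by norm_num), ← Real.sqrt_eq_rpow]
        exact Real.log_nonneg (by rw [le_div_iff₀ h1]; linarith)
    refine sInf_le_of_le (PressureLE.path (fun s => f (pt s θ)) (-y₂) (-y₁) _ (by linarith)
      (smooth_ray f hf θ _ _ (by linarith)) ⟨q₁, hq1m, ?_, le_rfl⟩) hle
    intro t ht
    rw [hq1]
    exact hq θ t (by linarith [ht.2])
  · filter_upwards [f3 g hg U hU f hf] with θ hθ
    have h1 : Tendsto (fun x : ℝ => -x) (𝓝[>] 0) (𝓝[<] 0) := by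
      refine tendsto_nhdsWithin_iff.2 ⟨?_, ?_⟩
      · have : Tendsto (fun x : ℝ => -x) (𝓝 0) (𝓝 (-0)) := continuous_neg.tendsto 0
        rw [neg_zero] at this
        exact this.mono_left nhdsWithin_le_nhds
      · filter_upwards [self_mem_nhdsWithin] with x hx
        exact neg_lt_zero.2 (mem_Ioi.1 hx)
    have h2 := hθ.comp h1
    refine h2.congr fun y => ?_
    simp [Function.comp]

end Pool.Agent.Helper35.PM
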