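import Pool.Agent.Helper35.PQF.St

/-!
# Project PQF: entropy weighted version of the first theorem
-/

open Filter Topology Matrix Set MeasureTheory
open scoped ENNReal ComplexOrder

namespace Pool.Agent.Helper35.PM

/-- **GE3** (one real variable, entropy weighted version of St_GE2; compare the proof of GE2).
Write `w = u - 1/2 > 0`, `v = log w`, `ψ = sqrt (2 - 1/u) = sqrt (2w/u) > 0`.
`|v(s)-v(t)| ≤ |s-t|`, so `v`, `u`, `ψ` are continuous.  Fix `0 < δ < 1/10` and let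
`G(t) = v(t+δ) - v(t)`, `|G| ≤ δ`; `wp = w(t+δ) = w e^{G(t)}`, `wm = w(t-δ) = w e^{-G(t-δ)}`.
As in GE2 (`up, um ≥ e^{-δ} u(t)`, both `j ≥ 1`):
`j t (t+δ) + j t (t-δ) - 2 ≤ (e^δ / u(t)) [2 cosh δ w - wp - wm]
 = e^δ (ψ²/2) [2 cosh δ - e^{G(t)} - e^{-G(t-δ)}] =: E_δ(t)`, a continuous function, `≥ 0`.
`q(t) = liminf_n ofReal (E_{δ_n}(t)/δ_n²)` with `δ_n = 1/(n+11)`, say; measurable, and at least the
liminf over `δ → 0+`.  Fatou: `∫⁻ ofReal(1/ψ) q ≤ liminf ∫⁻ ofReal (E_δ/(ψ δ²))`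
(`ofReal(1/ψ) * liminf = liminf (ofReal(1/ψ) * ..)`, or at least `≤`), and
`∫_0^L E_δ/(ψ δ²) = (e^δ/2) δ⁻² ∫_0^L ψ [2 cosh δ - e^{G(t)} - e^{-G(t-δ)}] dt`.
Use `e^g ≥ 1 + g + g²/3` for `|g| ≤ 1`:
`[..] ≤ (2 cosh δ - 2) + (G(t-δ) - G(t)) - (G(t)² + G(t-δ)²)/3`.
(i) `∫_0^L ψ(t)(G(t-δ) - G(t)) dt = ∫_0^{L-δ} (ψ(t+δ)-ψ(t)) G(t) dt + ∫_{-δ}^0 ψ(t+δ)G(t) dt
 - ∫_{L-δ}^L ψ(t) G(t) dt` (substitution `t → t+δ` in the first part; take `δ < L`).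
The last two terms are at most `δ² sup_{[0,δ]} ψ + δ² sup_{[L-δ,L]} ψ`.
(ii) `(ψ(t+δ)-ψ(t)) G(t) ≤ ψ(t) G(t)² (1+δ)/2`.  Indeed `ψ² = 2w/(w+1/2)` is an increasing function
of `w` and `ψ(t+δ)²/ψ(t)² = e^G (w+1/2)/(wp+1/2)` lies between `1` and `e^G`.  If `G ≥ 0`:
`0 ≤ ψ(t+δ) - ψ(t) ≤ ψ(t)(e^{G/2} - 1) ≤ ψ(t) (G/2)(1 + G/2)` (`e^x - 1 ≤ x + x²` for
`0 ≤ x ≤ 1`).  If `G < 0`: `0 ≤ ψ(t) - ψ(t+δ) ≤ ψ(t)(1 - e^{-|G|/2}) ≤ ψ(t)|G|/2`.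
(iii) `∫_0^L ψ(t)(G(t)² + G(t-δ)²) dt ≥ ∫_0^{L-δ} (ψ(t) + ψ(t+δ)) G(t)² dt
 ≥ (1 + e^{-δ/2}) ∫_0^{L-δ} ψ G²` (substitution in the second part; `ψ(t+δ) ≥ e^{-δ/2} ψ(t)` by
(ii)'s first sentence).
Since `(1+δ)/2 ≤ (1 + e^{-δ/2})/3` for `δ ≤ 1/10` (`e^{-1/20} ≥ 0.95`), the sum of (ii) and
`-1/3` times (iii) is `≤ 0`.  Altogether
`∫_0^L E_δ/(ψ δ²) ≤ (e^δ/2) [ (2 cosh δ - 2)/δ² ∫_0^L ψ + sup_{[0,δ]} ψ + sup_{[L-δ,L]} ψ ]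
→ (1/2)(∫_0^L ψ + ψ(0) + ψ(L))` as `δ → 0`. -/
def St_GE3 : Prop :=
  ∀ (u : ℝ → ℝ) (j : ℝ → ℝ → ℝ) (L : ℝ), 0 < L →
    (∀ t, 1 / 2 < u t) → (∀ t s, 1 ≤ j t s) →
    (∀ s t, u s ≤ Real.exp |s - t| * u t) →
    (∀ s t, u s - 1 / 2 ≤ Real.exp |s - t| * (u t - 1 / 2)) →
    (∀ t δ, 0 < δ → (j t (t + δ) - 1) * u (t + δ) + (j t (t - δ) - 1) * u (t - δ) ≤
      2 * Real.cosh δ * (u t - 1 / 2) - (u (t + δ) - 1 / 2) - (u (t - δ) - 1 / 2)) →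
    ∃ q : ℝ → ℝ≥0∞, Measurable q ∧
      (∀ t ∈ Ioo 0 L,
        liminf (fun δ : ℝ => ENNReal.ofReal ((j t (t + δ) + j t (t - δ) - 2) / δ ^ 2)) (𝓝[>] 0)
          ≤ q t) ∧
      ∫⁻ t in Ioo 0 L, ENNReal.ofReal (1 / Real.sqrt (2 - 1 / u t)) * q t ≤
        ENNReal.ofReal (((∫ t in (0 : ℝ)..L, Real.sqrt (2 - 1 / u t)) +
          Real.sqrt (2 - 1 / u 0) + Real.sqrt (2 - 1 / u L)) / 2)

/-- **F4** (entropy weighted form of the first theorem; see `Pool/Agent/Helper24/PM/M_F1.lean` for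
the unweighted form, proof copied with small changes).  `ψ(t) = sqrt (2 - ent (f (zt t)))`,
`S = ∫_0^L ψ`.  Let `u z = 1/ent (f z)` (so `2 - 1/u = 2 - ent`), `Pot` by St_PO, inequalities by
St_GE1.  If `L = 0`: both points are equal.  Let `L > 0`.
*Case 1*: `u(zt t₀) = 1/2` for some `t₀`.  By the second inequality of St_GE1
`u(zt t) - 1/2 ≤ e^{..} 0 = 0` for all `t`, so `u(zt t) = 1/2` for all `t`; St_GE2 with `η = 0`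
gives `q` with `∫⁻ q ≤ 0`, and (as in F1) the path has length `0`, i.e. F1 with `η = 0`
(`2 - ent = 0` on the segment) gives `pressureDist ≤ ofReal (sqrt 0) = 0`.
*Case 2*: `u(zt t) > 1/2` for all `t`.  St_GE3 gives `q`; St_CS with
`k(t) = ofReal (1/ψ(t))` (`ψ > 0`, continuous, so `k` is measurable: `ψ = sqrt (2 - 1/u)` and
`u ∘ zt` is continuous by the first inequality of St_GE1 used in both directions, or by St_RA2)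
gives `q₁`, `q₁² = q`,
`∫⁻ q₁ ≤ (∫⁻ k q)^{1/2} (∫⁻ k⁻¹)^{1/2}`, with `k⁻¹ = ofReal ψ`, `∫⁻_{(0,L)} ofReal ψ = ofReal S`, so
`∫⁻ q₁ ≤ ofReal (sqrt ((S + ψ(0) + ψ(L))/2)) * ofReal (sqrt S) = ofReal (sqrt (S (S+ψ(0)+ψ(L))/2))`.
The path is `t ↦ f (zt t)`, smooth as in F1. -/
def St_F4 : Prop :=
  ∀ g : ℕ, 2 ≤ g → ∀ U : (SurfaceGroup g →* SL) → Ultrafilter ℝ,
    (∀ ρ, IsQF ρ → Adapted (U ρ) ρ) →
    ∀ f : ℂ → SurfaceGroup g →* SL, HolDisc f → ∀ L : ℝ, 0 ≤ L →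
      pressureDist U (f 0) (f (zt L)) ≤ ENNReal.ofReal (Real.sqrt
        ((∫ t in (0 : ℝ)..L, Real.sqrt (2 - ent (f (zt t)))) *
          ((∫ t in (0 : ℝ)..L, Real.sqrt (2 - ent (f (zt t)))) +
            Real.sqrt (2 - ent (f (zt 0))) + Real.sqrt (2 - ent (f (zt L)))) / 2))

end Pool.Agent.Helper35.PM
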